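import Pool.Agent.Lib.MP_72e2e6_nt.P4.R.Spec

/-!
# MP_72e2e6_nt, P4/R/Cmx: uniformity for irreducible lattices
-/

namespace Pool.Agent.MP72G

open Finset Pool.Agent.MP72P Topology

variable {p : ℕ} [Fact p.Prime] {G L : Type} [Group G] [TopologicalSpace G] [AddCommGroup L]
  [Module (Oz p) L] {r : G → L → L}

/-- All stable submodules which contain `x` contain `p ^ j L`. -/
private def J (r : G → L → L) (x : L) (j : ℕ) : Prop :=
  ∀ L₁ : Submodule (Oz p) L, Stb r L₁ → x ∈ L₁ → ∀ y : L, (p : Oz p) ^ j • y ∈ L₁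

omit [Group G] [TopologicalSpace G] in
private theorem J_mono {x : L} {j j' : ℕ} (h : J (p := p) r x j) (hj : j ≤ j') :
    J (p := p) r x j' := by
  intro L₁ hL hx y
  obtain ⟨i, rfl⟩ := Nat.exists_eq_add_of_le hj
  rw [pow_add, mul_smul]
  exact h L₁ hL hx _

omit [Group G] [TopologicalSpace G] in
/-- Every `x ≠ 0` has an exponent. -/
private theorem exists_J (hI : Irz p r) {x : L} (hx : x ≠ 0) : ∃ j, J (p := p) r x j := by
  obtain ⟨M, hM⟩ : ∃ M : Submodule (Oz p) L,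
      M = sInf {L₁ : Submodule (Oz p) L | Stb r L₁ ∧ x ∈ L₁} := ⟨_, rfl⟩
  have hs : Stb r M := by
    intro g z hz
    rw [hM, Submodule.mem_sInf] at hz ⊢
    intro L₁ hL₁
    exact hL₁.1 g z (hz L₁ hL₁)
  have hxM : x ∈ M := by
    rw [hM, Submodule.mem_sInf]
    exact fun L₁ hL₁ => hL₁.2
  have hne : M ≠ ⊥ := by
    rintro rfl
    exact hx ((Submodule.mem_bot _).1 hxM)
  obtain ⟨j, hj⟩ := hI M hs hne
  refine ⟨j, fun L₁ hL₁ hx₁ y => ?_⟩
  have h := hj y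
  rw [hM, Submodule.mem_sInf] at h
  exact h L₁ ⟨hL₁, hx₁⟩

/-- The submodule `p ^ j L`. -/
private def PL (p : ℕ) [Fact p.Prime] (L : Type) [AddCommGroup L] [Module (Oz p) L] (j : ℕ) :
    Submodule (Oz p) L where
  carrier := {x | ∃ y, x = (p : Oz p) ^ j • y}
  add_mem' := by
    rintro x x' ⟨y, rfl⟩ ⟨y', rfl⟩
    exact ⟨y + y', by rw [smul_add]⟩
  zero_mem' := ⟨0, by rw [smul_zero]⟩
  smul_mem' := by
    rintro c x ⟨y, rfl⟩
    exact ⟨c • y, by rw [smul_comm]⟩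

private theorem mem_PL {j : ℕ} {x : L} : x ∈ PL p L j ↔ ∃ y, x = (p : Oz p) ^ j • y := Iff.rfl

/-- The exponent does not grow nearby. -/
private theorem J_near (hL : Ltc p r)
    (h5 : ∀ L₁ L₂ : Submodule (Oz p) L,
      (∀ x ∈ L₂, ∃ y ∈ L₁, ∃ z ∈ L₂, x = y + (p : Oz p) • z) → L₂ ≤ L₁) {x x' y : L} {j : ℕ}
    (hj : J (p := p) r x j) (hx : x' - x = (p : Oz p) ^ (j + 1) • y) : J (p := p) r x' j := by
  intro L₁ hL₁ hx₁ w
  have hst : Stb r (L₁ ⊔ PL p L (j + 1)) := by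
    intro g z hz
    obtain ⟨a, ha, b, hb, rfl⟩ := Submodule.mem_sup.1 hz
    obtain ⟨b', rfl⟩ := mem_PL.1 hb
    rw [hL.add]
    refine Submodule.add_mem_sup (hL₁ g a ha) ?_
    rw [hL.lin]
    exact mem_PL.2 ⟨_, rfl⟩
  have hxm : x ∈ L₁ ⊔ PL p L (j + 1) := by
    have h : x = x' + (-((p : Oz p) ^ (j + 1) • y)) := by
      rw [← hx]
      abel
    rw [h]
    exact Submodule.add_mem_sup hx₁ (Submodule.neg_mem _ (mem_PL.2 ⟨_, rfl⟩))
  have hle : PL p L j ≤ L₁ := by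
    refine h5 L₁ (PL p L j) fun z hz => ?_
    obtain ⟨z', rfl⟩ := mem_PL.1 hz
    obtain ⟨a, ha, b, hb, hab⟩ := Submodule.mem_sup.1 (hj _ hst hxm z')
    obtain ⟨b', rfl⟩ := mem_PL.1 hb
    refine ⟨a, ha, (p : Oz p) ^ j • b', mem_PL.2 ⟨_, rfl⟩, ?_⟩
    rw [← hab, pow_succ', mul_smul]
  exact hle (mem_PL.2 ⟨w, rfl⟩)

private theorem dvd_of_dist {a b : ℤ_[p]} {j : ℕ} (h : dist a b < (p : ℝ) ^ (-(j : ℤ))) :
    (p : ℤ_[p]) ^ j ∣ a - b := by
  rw [dist_eq_norm] at h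
  exact Ideal.mem_span_singleton.1 ((PadicInt.norm_le_pow_iff_mem_span_pow (a - b) j).1 h.le)

/-- **Cmx**. -/
theorem tCmx (h1 : S_Ozb) : S_Cmx := by
  intro p _ G L _ _ _ _ r hL hI
  obtain ⟨-, -, -, h0⟩ := h1 p
  obtain ⟨⟨n, e, he, -⟩, h5, -, -⟩ := h0 G L r hL
  have hpz : ∀ j : ℕ, (p : Oz p) ^ j = algebraMap ℤ_[p] (Oz p) ((p : ℤ_[p]) ^ j) := by
    intro j
    rw [map_pow, map_natCast]
  -- the primitive vectors
  obtain ⟨P, hP⟩ : ∃ P : Set (Fin n → ℤ_[p]), P = {v | ¬ ∀ i, ‖v i‖ < 1} := ⟨_, rfl⟩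
  have hPc : IsCompact P := by
    apply IsClosed.isCompact
    rw [hP, ← isOpen_compl_iff]
    have h2 : {v : Fin n → ℤ_[p] | ¬ ∀ i, ‖v i‖ < 1}ᶜ = ⋂ i, {v : Fin n → ℤ_[p] | ‖v i‖ < 1} := by
      ext v
      simp only [Set.mem_compl_iff, Set.mem_ofPred_eq, not_not, Set.mem_iInter]
    rw [h2]
    exact isOpen_iInter_of_finite fun i =>
      isOpen_lt (continuous_norm.comp (continuous_apply i)) continuous_const
  have key : ∃ c : ℕ, ∀ v ∈ P, J (p := p) r (e.symm v) c := by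
    refine hPc.induction_on (p := fun s => ∃ c : ℕ, ∀ v ∈ s, J (p := p) r (e.symm v) c)
      ⟨0, fun v hv => absurd hv (Set.notMem_empty v)⟩ ?_ ?_ ?_
    · rintro s t hst ⟨c, hc⟩
      exact ⟨c, fun v hv => hc v (hst hv)⟩
    · rintro s t ⟨c, hc⟩ ⟨c', hc'⟩
      refine ⟨max c c', fun v hv => ?_⟩
      rcases hv with hv | hv
      · exact J_mono (hc v hv) (le_max_left _ _)
      · exact J_mono (hc' v hv) (le_max_right _ _)
    · intro v hv
      have hne : e.symm v ≠ 0 := by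
        intro h
        have h2 : v = 0 := by
          rw [← e.apply_symm_apply v, h, map_zero]
        rw [hP, h2] at hv
        exact hv (by simp)
      obtain ⟨j, hj⟩ := exists_J hI hne
      have hpos : (0 : ℝ) < (p : ℝ) ^ (-((j + 1 : ℕ) : ℤ)) := by
        have : (0 : ℝ) < p := by exact_mod_cast (Fact.out : p.Prime).pos
        positivity
      refine ⟨Metric.ball v ((p : ℝ) ^ (-((j + 1 : ℕ) : ℤ))),
        mem_nhdsWithin_of_mem_nhds (Metric.ball_mem_nhds v hpos), j, fun v' hv' => ?_⟩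
      have hd : ∀ i, (p : ℤ_[p]) ^ (j + 1) ∣ v' i - v i := fun i =>
        dvd_of_dist ((dist_le_pi_dist v' v i).trans_lt hv')
      choose w hw using hd
      refine J_near hL h5 hj (y := e.symm w) ?_
      apply e.injective
      rw [map_sub, e.apply_symm_apply, e.apply_symm_apply, hpz, he, e.apply_symm_apply]
      funext i
      exact hw i
  obtain ⟨c, hc⟩ := key
  refine ⟨c, fun L₁ hL₁ hex x => ?_⟩
  obtain ⟨y, hy, hny⟩ := hex
  have hyP : e y ∈ P := by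
    rw [hP]
    intro h
    apply hny
    have h2 : ∀ i, (p : ℤ_[p]) ∣ e y i := fun i => (PadicInt.norm_lt_one_iff_dvd _).1 (h i)
    choose w hw using h2
    refine ⟨e.symm w, ?_⟩
    apply e.injective
    have h3 : (p : Oz p) = algebraMap ℤ_[p] (Oz p) (p : ℤ_[p]) := by rw [map_natCast]
    rw [h3, he, e.apply_symm_apply]
    funext i
    exact hw i
  have h2 := hc (e y) hyP L₁ hL₁
  rw [e.symm_apply_apply] at h2
  exact h2 hy x

end Pool.Agent.MP72G
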