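import Pool.Agent.Lib.MP_72e2e6_nt.P4.R.Spec

/-!
# MP_72e2e6_nt, theorem T4, part R: the ring `Oz p / p ^ k` (Lfo)
-/

namespace Pool.Agent.MP72G

open Finset Polynomial Pool.Agent.MP72P

private theorem lfo_pow_mod {M : Type} [Monoid M] {x : M} {p : ℕ} (h : x ^ p = 1) (m : ℕ) :
    x ^ (m % p) = x ^ m := by
  conv_rhs => rw [← Nat.mod_add_div m p, pow_add, pow_mul, h, one_pow, mul_one]

/-- `(X - 1) ^ (p - 1)` and `Φ` are equal modulo `p`. -/
private theorem lfo_modp (p : ℕ) [Fact p.Prime] :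
    ∃ G : ℤ[X], (X - 1) ^ (p - 1) - ∑ i ∈ range p, X ^ i = (p : ℤ[X]) * G := by
  have h1 : ((X - 1 : (ZMod p)[X]) ^ (p - 1)) = ∑ i ∈ range p, X ^ i := by
    have h2 := cyclotomic_mul_prime_eq_pow_of_not_dvd (ZMod p) (p := p) (n := 1)
      (fun h => (Fact.out : p.Prime).one_lt.ne' (Nat.dvd_one.1 h))
    rw [one_mul, cyclotomic_one, cyclotomic_prime] at h2
    exact h2.symm
  have h3 : (C (p : ℤ)) ∣ ((X - 1) ^ (p - 1) - ∑ i ∈ range p, X ^ i : ℤ[X]) := by
    rw [C_dvd_iff_dvd_coeff]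
    intro i
    rw [← ZMod.intCast_zmod_eq_zero_iff_dvd]
    have h4 : (((X - 1) ^ (p - 1) - ∑ i ∈ range p, X ^ i : ℤ[X]).map
        (Int.castRingHom (ZMod p))).coeff i = 0 := by
      rw [Polynomial.map_sub, Polynomial.map_pow, Polynomial.map_sub, Polynomial.map_sum]
      simp only [map_X, Polynomial.map_one, Polynomial.map_pow]
      rw [h1, sub_self, coeff_zero]
    rw [coeff_map] at h4
    exact h4
  obtain ⟨G, hG⟩ := h3
  refine ⟨G, ?_⟩
  rw [hG]
  simp

private theorem lfo_deg (p : ℕ) [Fact p.Prime] (R : Type) [CommRing R] [Nontrivial R] :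
    (∑ i ∈ range p, X ^ i : R[X]).natDegree = p - 1 := by
  rw [← cyclotomic_prime R p, natDegree_cyclotomic, Nat.totient_prime (Fact.out : p.Prime)]

private noncomputable def lfoP {p : ℕ} [NeZero p] {R : Type} [CommRing R] (z : ZMod p → R) : R[X] :=
  ∑ i : ZMod p, C (z i) * X ^ i.val

private theorem lfo_coeff {p : ℕ} [NeZero p] {R : Type} [CommRing R] (z : ZMod p → R) (j : ZMod p) :
    (lfoP z).coeff j.val = z j := by
  rw [lfoP, finsetSum_coeff]
  rw [Finset.sum_eq_single j]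
  · rw [coeff_C_mul_X_pow, if_pos rfl]
  · intro b _ hb
    rw [coeff_C_mul_X_pow, if_neg]
    intro h
    exact hb (ZMod.val_injective p h.symm)
  · intro h
    exact absurd (Finset.mem_univ j) h

private theorem lfo_coeff_ge {p : ℕ} [NeZero p] {R : Type} [CommRing R] (z : ZMod p → R) (m : ℕ)
    (hm : p ≤ m) : (lfoP z).coeff m = 0 := by
  rw [lfoP, finsetSum_coeff]
  refine Finset.sum_eq_zero fun i _ => ?_
  rw [coeff_C_mul_X_pow, if_neg]
  intro h
  have := ZMod.val_lt i
  omega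

private theorem lfo_const {p : ℕ} [NeZero p] {R : Type} [CommRing R] (c : R) :
    lfoP (fun _ : ZMod p => c) = C c * ∑ i ∈ range p, X ^ i := by
  rw [lfoP, Finset.mul_sum]
  refine Finset.sum_bij (fun (i : ZMod p) _ => i.val) ?_ ?_ ?_ ?_
  · intro i _
    exact Finset.mem_range.2 (ZMod.val_lt i)
  · intro i _ j _ h
    exact ZMod.val_injective p h
  · intro m hm
    refine ⟨(m : ZMod p), Finset.mem_univ _, ?_⟩
    exact ZMod.val_cast_of_lt (Finset.mem_range.1 hm)
  · intro i _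
    rfl

/-- a vector whose polynomial is a multiple of `Φ` is constant -/
private theorem lfo_ker {p : ℕ} [Fact p.Prime] [NeZero p] {R : Type} [CommRing R] (z : ZMod p → R)
    (h : (∑ i ∈ range p, X ^ i : R[X]) ∣ lfoP z) : ∃ c, ∀ i, z i = c := by
  have hp : p.Prime := Fact.out
  rcases subsingleton_or_nontrivial R with hs | hn
  · exact ⟨0, fun i => Subsingleton.elim _ _⟩
  · have hΦm : (∑ i ∈ range p, X ^ i : R[X]).Monic := monic_geom_sum_X hp.ne_zero
    obtain ⟨q, hq⟩ := h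
    have hdeg : (∑ i ∈ range p, X ^ i : R[X]).natDegree = p - 1 := lfo_deg p R
    have h2 : q.natDegree = 0 := by
      by_contra hne
      have hq0 : q ≠ 0 := by
        rintro rfl
        exact hne natDegree_zero
      have h3 := hΦm.natDegree_mul' hq0
      rw [← hq, hdeg] at h3
      have h4 : (lfoP z).natDegree ≤ p - 1 := by
        rw [natDegree_le_iff_coeff_eq_zero]
        intro m hm
        exact lfo_coeff_ge z m (by omega)
      omega
    rw [natDegree_eq_zero] at h2
    obtain ⟨c, rfl⟩ := h2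
    refine ⟨c, fun i => ?_⟩
    have h5 : lfoP z = lfoP (fun _ : ZMod p => c) := by
      rw [lfo_const, hq, mul_comm]
    rw [← lfo_coeff z i, h5, lfo_coeff]

private theorem lfo_mod {p : ℕ} [Fact p.Prime] [NeZero p] {R : Type} [CommRing R] [Nontrivial R]
    (f : R[X]) :
    lfoP (fun i : ZMod p => (f %ₘ (∑ i ∈ range p, X ^ i)).coeff i.val) =
      f %ₘ (∑ i ∈ range p, X ^ i) := by
  have hp : p.Prime := Fact.out
  have hΦm : (∑ i ∈ range p, X ^ i : R[X]).Monic := monic_geom_sum_X hp.ne_zero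
  ext m
  by_cases hm : m < p
  · have h2 := lfo_coeff (fun i : ZMod p => (f %ₘ (∑ i ∈ range p, X ^ i)).coeff i.val)
      (m : ZMod p)
    rw [ZMod.val_cast_of_lt hm] at h2
    exact h2
  · rw [lfo_coeff_ge _ m (not_lt.1 hm)]
    symm
    apply coeff_eq_zero_of_natDegree_lt
    have h5 := lfo_deg p R
    have h3 := natDegree_modByMonic_lt f hΦm (by
      intro h
      rw [h, natDegree_one] at h5
      have h6 := hp.two_le
      omega)
    omega

theorem tLfo (_h1 : S_Ozb) : S_Lfo := by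
  intro p _ k

  have hp : p.Prime := Fact.out
  have : NeZero p := ⟨hp.ne_zero⟩
  have : NeZero (p ^ k) := ⟨pow_ne_zero _ hp.ne_zero⟩
  let I : Ideal (Oz p) := Ideal.span {(p : Oz p) ^ k}
  let Λ : Type := Oz p ⧸ I
  let ζ : Λ := Ideal.Quotient.mk I (zo p)
  let R := ZMod (p ^ k)
  let Φ : ℤ_[p][X] := ∑ i ∈ range p, X ^ i
  have hzo : ∑ i ∈ range p, zo p ^ i = 0 := by
    have h1 : AdjoinRoot.mk Φ Φ = 0 := AdjoinRoot.mk_self
    have h2 : AdjoinRoot.mk Φ (∑ i ∈ range p, X ^ i) = 0 := h1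
    rw [map_sum] at h2
    have h3 : ∑ i ∈ range p, AdjoinRoot.root Φ ^ i = 0 := by
      simpa only [map_pow, AdjoinRoot.mk_X] using h2
    exact h3
  have hζ0 : ∑ i ∈ range p, ζ ^ i = 0 := by
    have h1 := congrArg (Ideal.Quotient.mk I) hzo
    rw [map_sum, map_zero] at h1
    simpa only [map_pow] using h1
  have hζp : ζ ^ p = 1 := by
    have h1 := geom_sum_mul ζ p
    rw [hζ0, zero_mul] at h1
    exact (sub_eq_zero.1 h1.symm)
  have hpk0 : Ideal.Quotient.mk I ((p : Oz p) ^ k) = 0 :=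
    Ideal.Quotient.eq_zero_iff_mem.2 (Ideal.mem_span_singleton_self _)
  have hpk : ((p ^ k : ℕ) : Λ) = 0 := by
    rw [map_pow, map_natCast] at hpk0
    rw [Nat.cast_pow]
    exact hpk0
  obtain ⟨m, hm⟩ := CharP.exists Λ
  have hdvd : m ∣ p ^ k := (CharP.cast_eq_zero_iff Λ m (p ^ k)).1 hpk
  let c : R →+* Λ := ZMod.castHom hdvd Λ
  have hval : ∀ a : R, c a = ((a.val : ℕ) : Λ) := by
    intro a
    conv_lhs => rw [← ZMod.natCast_zmod_val a]
    exact map_natCast _ _
  have hcp : ∀ a : ℤ_[p], Ideal.Quotient.mk I (AdjoinRoot.of Φ a) = c (PadicInt.toZModPow k a) := by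
    intro a
    have h : a - (((PadicInt.toZModPow k a).val : ℕ) : ℤ_[p]) ∈
        RingHom.ker (PadicInt.toZModPow (p := p) k) := by
      rw [RingHom.mem_ker, map_sub, map_natCast, ZMod.natCast_zmod_val, sub_self]
    rw [PadicInt.ker_toZModPow] at h
    obtain ⟨b, hb⟩ := Ideal.mem_span_singleton.1 h
    have h2 : a = (((PadicInt.toZModPow k a).val : ℕ) : ℤ_[p]) + (p : ℤ_[p]) ^ k * b := by
      rw [← hb]; ring
    rw [hval]
    conv_lhs => rw [h2]
    rw [map_add, map_mul, map_pow, map_natCast, map_natCast, map_add, map_mul, hpk0, zero_mul,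
      add_zero, map_natCast]
  let φ : (ZMod p → R) → Λ := fun z => ∑ i : ZMod p, c (z i) * ζ ^ i.val
  have hφ : ∀ z, φ z = ∑ i : ZMod p, c (z i) * ζ ^ i.val := fun z => rfl
  have hlift : ∀ z : ZMod p → ℤ_[p], Ideal.Quotient.mk I (AdjoinRoot.mk Φ (lfoP z)) =
      φ (fun i => PadicInt.toZModPow k (z i)) := by
    intro z
    rw [hφ, lfoP, map_sum, map_sum]
    refine Finset.sum_congr rfl fun i _ => ?_
    rw [map_mul, map_mul, map_pow, map_pow, AdjoinRoot.mk_C, AdjoinRoot.mk_X, hcp]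
    rfl
  have hwi : ∀ i : ℕ, ∃ w, ζ ^ i = 1 - (1 - ζ) * w := by
    intro i
    obtain ⟨w, hw⟩ := sub_dvd_pow_sub_pow (1 : Λ) ζ i
    refine ⟨w, ?_⟩
    rw [← hw, one_pow]
    ring
  choose w hw using hwi
  have hsurj : Function.Surjective φ := by
    intro x
    obtain ⟨x, rfl⟩ := Ideal.Quotient.mk_surjective x
    obtain ⟨f, rfl⟩ := AdjoinRoot.mk_surjective x
    refine ⟨fun i => PadicInt.toZModPow k ((f %ₘ Φ).coeff i.val), ?_⟩
    rw [← hlift fun i => (f %ₘ Φ).coeff i.val]
    have h1 : lfoP (fun i : ZMod p => (f %ₘ Φ).coeff i.val) = f %ₘ Φ := lfo_mod f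
    rw [h1]
    congr 1
    rw [AdjoinRoot.mk_eq_mk]
    have h2 := modByMonic_add_div f Φ
    refine ⟨-(f /ₘ Φ), ?_⟩
    change _ = Φ * _
    linear_combination h2
  have hadd : ∀ z z', φ (z + z') = φ z + φ z' := by
    intro z z'
    rw [hφ, hφ, hφ, ← Finset.sum_add_distrib]
    refine Finset.sum_congr rfl fun i _ => ?_
    rw [Pi.add_apply, map_add, add_mul]
  have hker : ∀ z, φ z = 0 ↔ ∃ c, ∀ i, z i = c := by
    intro z
    constructor
    · intro h
      apply lfo_ker
      have h0 : z = fun i => PadicInt.toZModPow k ((((z i).val : ℕ) : ℤ_[p])) := by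
        funext i
        rw [map_natCast, ZMod.natCast_zmod_val]
      rw [h0, ← hlift, Ideal.Quotient.eq_zero_iff_mem] at h
      obtain ⟨y, hy⟩ := Ideal.mem_span_singleton.1 h
      obtain ⟨g, rfl⟩ := AdjoinRoot.mk_surjective y
      have h2 : AdjoinRoot.mk Φ (lfoP (fun i : ZMod p => (((z i).val : ℕ) : ℤ_[p])) -
          C ((p : ℤ_[p]) ^ k) * g) = 0 := by
        rw [map_sub, hy, map_mul, AdjoinRoot.mk_C, map_pow, map_natCast]
        exact sub_self _
      rw [AdjoinRoot.mk_eq_zero] at h2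
      have h3 := Polynomial.map_dvd (PadicInt.toZModPow (p := p) k) h2
      have h4 : (PadicInt.toZModPow (p := p) k) ((p : ℤ_[p]) ^ k) = 0 := by
        rw [map_pow, map_natCast]
        have := ZMod.natCast_self (p ^ k)
        rwa [Nat.cast_pow] at this
      have h5 : (lfoP (fun i : ZMod p => (((z i).val : ℕ) : ℤ_[p]))).map
          (PadicInt.toZModPow (p := p) k) = lfoP z := by
        rw [lfoP, lfoP, Polynomial.map_sum]
        refine Finset.sum_congr rfl fun i _ => ?_
        rw [Polynomial.map_mul, Polynomial.map_pow, map_C, map_X, map_natCast,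
          ZMod.natCast_zmod_val]
      rw [Polynomial.map_sub, Polynomial.map_mul, map_C, h4, C_0, zero_mul, sub_zero, h5] at h3
      have h6 : Φ.map (PadicInt.toZModPow (p := p) k) = ∑ i ∈ range p, X ^ i := by
        change (∑ i ∈ range p, X ^ i : ℤ_[p][X]).map (PadicInt.toZModPow (p := p) k) = _
        rw [Polynomial.map_sum]
        simp only [Polynomial.map_pow, map_X]
      rw [h6] at h3
      exact h3
    · rintro ⟨a, ha⟩
      rw [hφ]
      have h1 : ∑ i : ZMod p, c (z i) * ζ ^ i.val = c a * ∑ i ∈ range p, ζ ^ i := by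
        rw [Finset.mul_sum]
        refine Finset.sum_bij (fun (i : ZMod p) _ => i.val) ?_ ?_ ?_ ?_
        · intro i _
          exact Finset.mem_range.2 (ZMod.val_lt i)
        · intro i _ j _ h
          exact ZMod.val_injective p h
        · intro m hm
          refine ⟨(m : ZMod p), Finset.mem_univ _, ?_⟩
          exact ZMod.val_cast_of_lt (Finset.mem_range.1 hm)
        · intro i _
          rw [ha i]
      rw [h1, hζ0, mul_zero]
  have hshift : ∀ z (c : ZMod p), φ (fun i => z (i - c)) = ζ ^ c.val * φ z := by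
    intro z c
    rw [hφ, hφ, Finset.mul_sum]
    rw [← Equiv.sum_comp (Equiv.addRight c)]
    refine Finset.sum_congr rfl fun i _ => ?_
    rw [Equiv.coe_addRight, add_sub_cancel_right, ZMod.val_add, lfo_pow_mod hζp, pow_add]
    ring
  refine ⟨φ, ⟨⟨?_, ?_, ?_, ?_, ?_⟩, hpk, hsurj, hadd, hker, ?_, ?_⟩⟩
  · -- card
    let φh : (ZMod p → R) →+ Λ := AddMonoidHom.mk' φ hadd
    have h1 : Nat.card (ZMod p → R) = Nat.card φh.ker * Nat.card ((ZMod p → R) ⧸ φh.ker) := by
      rw [mul_comm]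
      exact AddSubgroup.card_eq_card_quotient_mul_card_addSubgroup _
    have h2 : Nat.card ((ZMod p → R) ⧸ φh.ker) = Nat.card Λ :=
      Nat.card_congr (QuotientAddGroup.quotientKerEquivOfSurjective φh hsurj).toEquiv
    have h3 : Nat.card φh.ker = p ^ k := by
      have e : R ≃ φh.ker := by
        refine Equiv.ofBijective (fun c => ⟨fun _ => c, (hker _).2 ⟨c, fun _ => rfl⟩⟩) ⟨?_, ?_⟩
        · intro c c' h
          exact congrFun (congrArg Subtype.val h) 0
        · rintro ⟨z, hz⟩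
          obtain ⟨c, hc⟩ := (hker z).1 hz
          exact ⟨c, Subtype.ext (funext fun i => (hc i).symm)⟩
      rw [← Nat.card_congr e]
      exact Nat.card_zmod _
    have h4 : Nat.card (ZMod p → R) = (p ^ k) ^ p := by
      rw [Nat.card_fun, Nat.card_zmod, Nat.card_zmod]
    rw [h2, h3, h4] at h1
    have h5 : (p ^ k) ^ p = p ^ k * p ^ (k * (p - 1)) := by
      rw [pow_mul, ← pow_succ', Nat.sub_add_cancel hp.one_lt.le]
    rw [h5] at h1
    exact (Nat.eq_of_mul_eq_mul_left (pow_pos hp.pos k) h1).symm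
  · -- nil
    change (1 - ζ) ^ (k * (p - 1)) = 0
    obtain ⟨G, hG⟩ := lfo_modp p
    have h1 := congrArg (aeval ζ) hG
    simp only [map_sub, map_pow, map_sum, map_mul, aeval_X, map_one, map_natCast] at h1
    rw [hζ0, sub_zero] at h1
    have h2 : (1 - ζ) ^ (p - 1) = (p : Λ) * ((-1) ^ (p - 1) * aeval ζ G) := by
      have h3 : (1 - ζ) = (-1) * (ζ - 1) := by ring
      rw [h3, mul_pow, h1]
      ring
    rw [mul_comm k, pow_mul, h2, mul_pow]
    have h3 : (p : Λ) ^ k = 0 := by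
      rw [← hpk]
      push_cast
      rfl
    rw [h3, zero_mul]
  · -- res
    intro x
    change ∃ (c : ℕ) (y : Λ), x = c + (1 - ζ) * y
    obtain ⟨z, rfl⟩ := hsurj x
    refine ⟨∑ i, (z i).val, -∑ i : ZMod p, ((z i).val : Λ) * w i.val, ?_⟩
    rw [hφ, Nat.cast_sum, mul_neg, Finset.mul_sum, ← sub_eq_add_neg, ← Finset.sum_sub_distrib]
    refine Finset.sum_congr rfl fun i _ => ?_
    rw [hval, hw i.val]
    ring
  · -- pdv
    change ∃ y, (p : Λ) = (1 - ζ) * y
    refine ⟨∑ i ∈ range p, w i, ?_⟩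
    have h1 : ∑ i ∈ range p, (1 - (1 - ζ) * w i) = 0 := by
      rw [← hζ0]
      exact Finset.sum_congr rfl fun i _ => (hw i).symm
    rw [Finset.sum_sub_distrib, Finset.sum_const, Finset.card_range, nsmul_eq_mul, mul_one,
      ← Finset.mul_sum] at h1
    exact sub_eq_zero.1 h1
  · -- phi
    change ∑ i ∈ range p, (1 - (1 - ζ)) ^ i = 0
    simpa only [sub_sub_cancel] using hζ0
  · intro z c
    change φ (fun i => z (i - c)) = zt (1 - ζ) c * φ z
    rw [zt, sub_sub_cancel]
    exact hshift z c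
  · intro z m
    rw [hφ, hφ, Finset.mul_sum]
    refine Finset.sum_congr rfl fun i _ => ?_
    rw [map_mul, map_natCast]
    ring

end Pool.Agent.MP72G
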