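import Pool.Agent.Lib.MP_72e2e6_nt.P4.R.Spec

/-!
# MP_72e2e6_nt, theorem T4, part R: module Nsb
-/

namespace Pool.Agent.MP72G

open Finset Pool.Agent.MP72P

private lemma range_map_pow {p : ℕ} [Fact p.Prime] {L : Type} [AddCommGroup L] [Module (Oz p) L]
    (n : ℕ) (e : L ≃+ (Fin n → ℤ_[p]))
    (he : ∀ (c : ℤ_[p]) (x : L), e (algebraMap ℤ_[p] (Oz p) c • x) = c • e x) (c : ℕ) (x y : L)
    (h : ∀ i, PadicInt.toZModPow c (e x i) = PadicInt.toZModPow c (e y i)) :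
    ∃ z : L, x - y = (p : Oz p) ^ c • z := by
  have h1 : ∀ i, ∃ b : ℤ_[p], e x i - e y i = (p : ℤ_[p]) ^ c * b := by
    intro i
    have h2 : PadicInt.toZModPow c (e x i - e y i) = 0 := by
      rw [map_sub, h i, sub_self]
    have h3 : e x i - e y i ∈ RingHom.ker (PadicInt.toZModPow (p := p) c) := h2
    rw [PadicInt.ker_toZModPow, Ideal.mem_span_singleton] at h3
    exact h3
  choose b hb using h1
  refine ⟨e.symm b, ?_⟩
  apply e.injective
  have h4 : ((p : Oz p) ^ c) = algebraMap ℤ_[p] (Oz p) ((p : ℤ_[p]) ^ c) := by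
    rw [map_pow, map_natCast]
  rw [h4, he, map_sub, AddEquiv.apply_symm_apply]
  funext i
  simp only [Pi.sub_apply, Pi.smul_apply, smul_eq_mul]
  exact hb i

theorem tNsb (h1 : S_Ozb) (h2 : S_Rdf) (h3 : S_Cmx) : S_Nsb := by
  classical
  intro p _ G L _ _ _ _ _ r ω hω hL hI
  obtain ⟨c, hc⟩ := h3 p G L r hL hI
  obtain ⟨⟨n, e, he, -⟩, -⟩ := (h1 p).2.2.2 G L r hL
  have : Fintype (Set (Fin n → ZMod (p ^ c))) := by
    have : NeZero (p ^ c) := ⟨pow_ne_zero _ (Fact.out : p.Prime).ne_zero⟩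
    infer_instance
  refine ⟨Fintype.card (Set (Fin n → ZMod (p ^ c))), ?_⟩
  intro k N _ _ q ρ hR
  obtain ⟨-, -, -, hst, -, -⟩ := h2 p G L r ω hω hL k N q ρ hR
  -- the largest exponent
  let P : Submodule (Oz p) N → ℕ → Prop := fun N₁ i =>
    ∀ x ∈ N₁.comap q, ∃ y, x = (p : Oz p) ^ i • y
  let I : Submodule (Oz p) N → ℕ := fun N₁ => Nat.findGreatest (P N₁) k
  let M : Submodule (Oz p) N → Submodule (Oz p) L := fun N₁ =>
    (N₁.comap q).comap (LinearMap.lsmul (Oz p) L ((p : Oz p) ^ (I N₁)))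
  have hM : ∀ N₁ x, x ∈ M N₁ ↔ q ((p : Oz p) ^ (I N₁) • x) ∈ N₁ := by
    intro N₁ x
    simp only [M, Submodule.mem_comap, LinearMap.lsmul_apply]
  let f : Submodule (Oz p) N → ℕ × Set (Fin n → ZMod (p ^ c)) := fun N₁ =>
    (I N₁, {v | ∃ x ∈ M N₁, ∀ i, v i = PadicInt.toZModPow c (e x i)})
  have hP0 : ∀ N₁, P N₁ 0 := fun N₁ x _ => ⟨x, by rw [pow_zero, one_smul]⟩
  have hPI : ∀ N₁, P N₁ (I N₁) := fun N₁ => Nat.findGreatest_spec (Nat.zero_le k) (hP0 N₁)
  have hIk : ∀ N₁, I N₁ ≤ k := fun N₁ => Nat.findGreatest_le k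
  have hk : ∀ (N₁ : Submodule (Oz p) N) (y : L), q ((p : Oz p) ^ k • y) ∈ N₁ := by
    intro N₁ y
    rw [(hR.ker _).mpr ⟨y, rfl⟩]
    exact N₁.zero_mem
  have htf : ∀ (i : ℕ) (x : L), (p : Oz p) ^ i • x = 0 → x = 0 := by
    intro i
    induction i with
    | zero => intro x hx; simpa using hx
    | succ i ih =>
      intro x hx
      rw [pow_succ, mul_smul] at hx
      exact hL.tf x (ih _ hx)
  -- the submodule is determined
  have hcov : ∀ N₁, Stb ρ N₁ → I N₁ < k → ∀ x : L, (p : Oz p) ^ c • x ∈ M N₁ := by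
    intro N₁ hN hi
    apply hc
    · intro g x hx
      rw [hM] at hx ⊢
      rw [← hL.lin]
      exact (hst N₁).mp hN g _ hx
    · by_contra hcon
      push Not at hcon
      have h5 : P N₁ (I N₁ + 1) := by
        intro x hx
        obtain ⟨y, rfl⟩ := hPI N₁ x hx
        have hy : y ∈ M N₁ := by rw [hM]; exact hx
        obtain ⟨z, rfl⟩ := hcon y hy
        exact ⟨z, by rw [pow_succ, mul_smul]⟩
      have h6 : I N₁ + 1 ≤ I N₁ := Nat.le_findGreatest hi h5
      omega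
  have hle : ∀ N₁ N₂ : Submodule (Oz p) N, Stb ρ N₁ → Stb ρ N₂ → f N₁ = f N₂ → N₁ ≤ N₂ := by
    intro N₁ N₂ hN₁ hN₂ hf
    have hI12 : I N₁ = I N₂ := congrArg Prod.fst hf
    have hS12 : {v : Fin n → ZMod (p ^ c) | ∃ x ∈ M N₁, ∀ i, v i = PadicInt.toZModPow c (e x i)} =
      {v | ∃ x ∈ M N₂, ∀ i, v i = PadicInt.toZModPow c (e x i)} := congrArg Prod.snd hf
    intro u hu
    obtain ⟨x, rfl⟩ := hR.sur u
    obtain ⟨y, rfl⟩ := hPI N₁ x hu
    rcases (hIk N₁).lt_or_eq with hlt | heq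
    · have hy : y ∈ M N₁ := by rw [hM]; exact hu
      have h7 : (fun i => PadicInt.toZModPow c (e y i)) ∈
          {v : Fin n → ZMod (p ^ c) | ∃ x ∈ M N₁, ∀ i, v i = PadicInt.toZModPow c (e x i)} :=
        ⟨y, hy, fun _ => rfl⟩
      rw [hS12] at h7
      obtain ⟨y', hy', hyy⟩ := h7
      obtain ⟨z, hz⟩ := range_map_pow n e he c y y' hyy
      have h8 : y ∈ M N₂ := by
        have h9 : y = y' + (p : Oz p) ^ c • z := by rw [← hz]; abel
        rw [h9]
        exact (M N₂).add_mem hy' (hcov N₂ hN₂ (by omega) z)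
      rw [hM, ← hI12] at h8
      exact h8
    · rw [heq]
      exact hk N₂ y
  have hmaps : ∀ a ∈ {N₁ : Submodule (Oz p) N | Stb ρ N₁}, f a ∈
      (↑((Finset.range (k + 1)) ×ˢ (Finset.univ : Finset (Set (Fin n → ZMod (p ^ c))))) :
        Set (ℕ × Set (Fin n → ZMod (p ^ c)))) := by
    intro a _
    simp only [Finset.coe_product, Finset.coe_univ, Set.mem_prod, Set.mem_univ, and_true,
      Finset.mem_coe, Finset.mem_range]
    have := hIk a
    show I a < k + 1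
    omega
  have hinj : Set.InjOn f {N₁ : Submodule (Oz p) N | Stb ρ N₁} := by
    intro a ha b hb hab
    exact le_antisymm (hle a b ha hb hab) (hle b a hb ha hab.symm)
  have hcard := Set.ncard_le_ncard_of_injOn f hmaps hinj (Finset.finite_toSet _)
  rw [Set.ncard_coe_finset, Finset.card_product, Finset.card_range, Finset.card_univ] at hcard
  rw [mul_comm]
  exact hcard

end Pool.Agent.MP72G
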