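import Pool.Agent.Lib.MP_72e2e6_nt.P4.R.Spec

/-!
# MP_72e2e6_nt, theorem T4, part R: all lattices

Induction on the order of `L / p L`.
-/

namespace Pool.Agent.MP72G

open Finset Pool.Agent.MP72P

private noncomputable def pS (p : ℕ) [Fact p.Prime] (L : Type) [AddCommGroup L] [Module (Oz p) L] :
    Submodule (Oz p) L :=
  LinearMap.range ((p : Oz p) • (LinearMap.id : L →ₗ[Oz p] L))

private theorem mem_pS {p : ℕ} [Fact p.Prime] {L : Type} [AddCommGroup L] [Module (Oz p) L]
    {x : L} : x ∈ pS p L ↔ ∃ y : L, x = (p : Oz p) • y := by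
  constructor
  · rintro ⟨y, hy⟩
    exact ⟨y, by rw [← hy]; rfl⟩
  · rintro ⟨y, hy⟩
    exact ⟨y, by rw [hy]; rfl⟩

/-- The isolated hull of `L₁`. -/
private noncomputable def hul {p : ℕ} [Fact p.Prime] {L : Type} [AddCommGroup L] [Module (Oz p) L]
    (L₁ : Submodule (Oz p) L) : Submodule (Oz p) L where
  carrier := {x | ∃ j : ℕ, (p : Oz p) ^ j • x ∈ L₁}
  add_mem' := by
    rintro x y ⟨i, hi⟩ ⟨j, hj⟩
    refine ⟨i + j, ?_⟩
    rw [smul_add]
    refine L₁.add_mem ?_ ?_
    · rw [add_comm, pow_add, mul_smul]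
      exact L₁.smul_mem _ hi
    · rw [pow_add, mul_smul]
      exact L₁.smul_mem _ hj
  zero_mem' := ⟨0, by simp⟩
  smul_mem' := by
    rintro c x ⟨j, hj⟩
    refine ⟨j, ?_⟩
    rw [smul_comm]
    exact L₁.smul_mem _ hj

private theorem mem_hul {p : ℕ} [Fact p.Prime] {L : Type} [AddCommGroup L] [Module (Oz p) L]
    {L₁ : Submodule (Oz p) L} {x : L} : x ∈ hul L₁ ↔ ∃ j : ℕ, (p : Oz p) ^ j • x ∈ L₁ := Iff.rfl

/-- A finitely generated module of elements which are pushed into `L₁` is pushed into `L₁` by one power. -/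
private theorem exists_pow {p : ℕ} [Fact p.Prime] {L : Type} [AddCommGroup L] [Module (Oz p) L]
    [Module.Finite (Oz p) L] {L₁ : Submodule (Oz p) L} (h : hul L₁ = ⊤) :
    ∃ j : ℕ, ∀ x : L, (p : Oz p) ^ j • x ∈ L₁ := by
  obtain ⟨s, hs⟩ := (Module.Finite.fg_top : (⊤ : Submodule (Oz p) L).FG)
  have h1 : ∀ t : Finset L, ∃ J : ℕ, ∀ x ∈ t, (p : Oz p) ^ J • x ∈ L₁ := by
    classical
    intro t
    induction t using Finset.induction_on with
    | empty => exact ⟨0, by simp⟩
    | insert a t _ ih =>
      obtain ⟨J, hJ⟩ := ih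
      have ha : a ∈ hul L₁ := by rw [h]; trivial
      obtain ⟨i, hi⟩ := ha
      refine ⟨i + J, ?_⟩
      intro x hx
      rcases Finset.mem_insert.1 hx with rfl | hx
      · rw [add_comm, pow_add, mul_smul]
        exact L₁.smul_mem _ hi
      · rw [pow_add, mul_smul]
        exact L₁.smul_mem _ (hJ x hx)
  obtain ⟨J, hJ⟩ := h1 s
  refine ⟨J, ?_⟩
  have h2 : (⊤ : Submodule (Oz p) L) ≤
      L₁.comap ((p : Oz p) ^ J • (LinearMap.id : L →ₗ[Oz p] L)) := by
    rw [← hs]
    refine Submodule.span_le.2 ?_
    intro x hx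
    exact hJ x hx
  intro x
  exact h2 (Submodule.mem_top : x ∈ (⊤ : Submodule (Oz p) L))

theorem tPrA (h1 : S_Ozb) (h2 : S_PrI) (h3 : S_PrE) : S_PrA := by
  intro p _ G _ _ _ S X _ _ d A T hT
  have key : ∀ n : ℕ, ∀ (L : Type) [AddCommGroup L] [Module (Oz p) L] (r : G → L → L),
      Ltc p r → Nat.card (L ⧸ pS p L) = n → PrL A L r := by
    intro n
    induction n using Nat.strong_induction_on with
    | _ n ih =>
      intro L _ _ r hr hn
      by_cases hI : Irz p r
      · exact h2 p G S X d A T hT L r hr hI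
      · unfold Irz at hI
        push Not at hI
        obtain ⟨L₁, hst, hne, hL⟩ := hI
        obtain ⟨⟨m, e, -, hV⟩, hNak, hSub, hQuo⟩ := (h1 p).2.2.2 G L r hr
        have hfg := hr.fg
        set L' : Submodule (Oz p) L := hul L₁ with hL'
        have hst' : Stb r L' := by
          rintro g x ⟨j, hj⟩
          refine ⟨j, ?_⟩
          rw [← hr.lin]
          exact hst g _ hj
        have hpure : ∀ x : L, (p : Oz p) • x ∈ L' → x ∈ L' := by
          rintro x ⟨j, hj⟩
          refine ⟨j + 1, ?_⟩
          rw [pow_succ, mul_smul]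
          exact hj
        have hle : L₁ ≤ L' := fun x hx => ⟨0, by simpa using hx⟩
        have hbot : L' ≠ ⊥ := by
          intro hb
          exact hne (le_bot_iff.1 (hb ▸ hle))
        have htop : L' ≠ ⊤ := by
          intro ht
          obtain ⟨j, hj⟩ := exists_pow (L₁ := L₁) ht
          obtain ⟨x, hx⟩ := hL j
          exact hx (hj x)
        -- the operators on the quotient
        let rl : G → L →ₗ[Oz p] L := fun g =>
          { toFun := r g, map_add' := hr.add g, map_smul' := fun c x => hr.lin g c x }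
        have hrl : ∀ g, L' ≤ L'.comap (rl g) := fun g x hx => hst' g x hx
        let r' : G → L ⧸ L' → L ⧸ L' := fun g => L'.mapQ L' (rl g) (hrl g)
        have hr' : ∀ g x, r' g (L'.mkQ x) = L'.mkQ (r g x) := by
          intro g x
          exact Submodule.mapQ_apply L' L' (rl g) (h := hrl g) x
        have hLs : Ltc p (rsn r L') := hSub L' hst'
        have hLq : Ltc p r' := hQuo L' hst' hpure r' hr'
        -- finiteness
        have hfin : Finite (L ⧸ pS p L) := by
          let q₁ : (⊤ : Submodule (Oz p) L) →+ (L ⧸ pS p L) :=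
            (((pS p L).mkQ).comp (⊤ : Submodule (Oz p) L).subtype).toAddMonoidHom
          refine (hV ⊤ (L ⧸ pS p L) q₁ ?_ ?_).1
          · intro y
            obtain ⟨x, rfl⟩ := (pS p L).mkQ_surjective y
            exact ⟨⟨x, trivial⟩, rfl⟩
          · rintro ⟨x, hx⟩
            change (pS p L).mkQ ((p : Oz p) • x) = 0
            rw [Submodule.mkQ_apply, Submodule.Quotient.mk_eq_zero]
            exact mem_pS.2 ⟨x, rfl⟩
        -- the first inequality
        let φ : (L' ⧸ pS p L') →ₗ[Oz p] (L ⧸ pS p L) :=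
          (pS p L').mapQ (pS p L) L'.subtype (by
            intro x hx
            obtain ⟨y, hy⟩ := mem_pS.1 hx
            refine mem_pS.2 ⟨y, ?_⟩
            rw [hy]; rfl)
        have hφi : Function.Injective φ := by
          rw [injective_iff_map_eq_zero]
          intro y hy
          obtain ⟨x, rfl⟩ := (pS p L').mkQ_surjective y
          have h4 : (pS p L).mkQ (x : L) = 0 := hy
          rw [Submodule.mkQ_apply, Submodule.Quotient.mk_eq_zero] at h4
          obtain ⟨z, hz⟩ := mem_pS.1 h4
          have hz' : z ∈ L' := hpure z (hz ▸ x.2)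
          rw [Submodule.mkQ_apply, Submodule.Quotient.mk_eq_zero]
          exact mem_pS.2 ⟨⟨z, hz'⟩, Subtype.ext hz⟩
        have hφs : ¬ Function.Surjective φ := by
          intro hs
          apply htop
          rw [eq_top_iff]
          refine hNak L' ⊤ ?_
          intro x _
          obtain ⟨y, hy⟩ := hs ((pS p L).mkQ x)
          obtain ⟨w, rfl⟩ := (pS p L').mkQ_surjective y
          have h4 : (pS p L).mkQ (w : L) = (pS p L).mkQ x := hy
          have h5 : x - w ∈ pS p L := by
            rw [← Submodule.Quotient.mk_eq_zero, Submodule.Quotient.mk_sub, sub_eq_zero]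
            exact h4.symm
          obtain ⟨z, hz⟩ := mem_pS.1 h5
          exact ⟨w, w.2, z, trivial, by rw [← hz]; abel⟩
        have hlt1 : Nat.card (L' ⧸ pS p L') < n := by
          rw [← hn]
          have := Finite.of_injective φ hφi
          refine lt_of_le_of_ne (Nat.card_le_card_of_injective φ hφi) ?_
          intro hc
          exact hφs (((Nat.bijective_iff_injective_and_card φ).2 ⟨hφi, hc⟩).2)
        -- the second inequality
        let ψ : (L ⧸ pS p L) →ₗ[Oz p] ((L ⧸ L') ⧸ pS p (L ⧸ L')) :=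
          (pS p L).mapQ (pS p (L ⧸ L')) L'.mkQ (by
            intro x hx
            obtain ⟨y, hy⟩ := mem_pS.1 hx
            refine mem_pS.2 ⟨L'.mkQ y, ?_⟩
            rw [hy]; rfl)
        have hψs : Function.Surjective ψ := by
          intro y
          obtain ⟨z, rfl⟩ := (pS p (L ⧸ L')).mkQ_surjective y
          obtain ⟨x, rfl⟩ := L'.mkQ_surjective z
          exact ⟨(pS p L).mkQ x, rfl⟩
        have hψi : ¬ Function.Injective ψ := by
          intro hi
          apply hbot
          rw [eq_bot_iff]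
          refine hNak ⊥ L' ?_
          intro x hx
          have h4 : ψ ((pS p L).mkQ x) = 0 := by
            change (pS p (L ⧸ L')).mkQ (L'.mkQ x) = 0
            have h6 : L'.mkQ x = 0 := by
              rw [Submodule.mkQ_apply, Submodule.Quotient.mk_eq_zero]
              exact hx
            rw [h6, map_zero]
          have h5 : (pS p L).mkQ x = 0 := hi (h4.trans (map_zero ψ).symm)
          rw [Submodule.mkQ_apply, Submodule.Quotient.mk_eq_zero] at h5
          obtain ⟨z, hz⟩ := mem_pS.1 h5
          exact ⟨0, Submodule.zero_mem _, z, hpure z (hz ▸ hx), by rw [zero_add]; exact hz⟩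
        have hlt2 : Nat.card ((L ⧸ L') ⧸ pS p (L ⧸ L')) < n := by
          rw [← hn]
          refine lt_of_le_of_ne (Nat.card_le_card_of_surjective ψ hψs) ?_
          intro hc
          exact hψi (((Nat.bijective_iff_surjective_and_card ψ).2 ⟨hψs, hc.symm⟩).1)
        exact h3 p G S X d A T hT L r hr L' hst' hpure r' hr'
          (ih _ hlt1 L' (rsn r L') hLs rfl) (ih _ hlt2 (L ⧸ L') r' hLq rfl)
  intro L _ _ r hr
  exact key _ L r hr rfl

end Pool.Agent.MP72G
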