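import Pool.Agent.Lib.MP_72e2e6_nt.P4.R.Spec

/-!
# MP_72e2e6_nt, theorem T4, part R (lattices): extensions
-/

namespace Pool.Agent.MP72G

open Finset Pool.Agent.MP72P

private theorem rsn_coe {G Λ N : Type} [CommRing Λ] [AddCommGroup N] [Module Λ N] (ρ : G → N → N)
    (N' : Submodule Λ N) (hs : Stb ρ N') (g : G) (x : N') :
    ((rsn ρ N' g x : N') : N) = ρ g x := by
  unfold rsn
  rw [dif_pos (hs g x x.2)]

private theorem rsn_twz {p : ℕ} {G Λ N : Type} [CommRing Λ] [AddCommGroup N] [Module Λ N] (ζ : Λ)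
    (ρ : G → N → N) (N' : Submodule Λ N) (hs : Stb ρ N') (h : G → ZMod p) :
    rsn (twz ζ ρ h) N' = twz ζ (rsn ρ N') h := by
  have hs' : Stb (twz ζ ρ h) N' := fun g x hx => N'.smul_mem _ (hs g x hx)
  funext g x
  apply Subtype.ext
  rw [rsn_coe _ _ hs']
  show ζ ^ (h g).val • ρ g x = ((ζ ^ (h g).val • rsn ρ N' g x : N') : N)
  rw [Submodule.coe_smul, rsn_coe _ _ hs]

/-- The kernel of an extension. -/
private theorem ker_ext {G S Λ N : Type} [Group G] [TopologicalSpace G] [CommRing Λ]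
    [AddCommGroup N] [Module Λ N] (D : S → Subgroup G) (ρ : G → N → N)
    (hadd : ∀ g x y, ρ g (x + y) = ρ g x + ρ g y) (N' : Submodule Λ N) (hs : Stb ρ N')
    (ρ'' : G → N ⧸ N' → N ⧸ N') (hρ : ∀ g x, ρ'' g (N'.mkQ x) = N'.mkQ (ρ g x))
    (hf : (Ker ρ D).Finite) (hf' : (Ker (rsn ρ N') D).Finite) (hf'' : (Ker ρ'' D).Finite) :
    (Ker ρ D).ncard ≤ (Ker (rsn ρ N') D).ncard * (Ker ρ'' D).ncard := by
  classical
  have hsub : ∀ g x y, ρ g (x - y) = ρ g x - ρ g y := by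
    intro g x y
    have := hadd g (x - y) y
    rw [sub_add_cancel] at this
    rw [this, add_sub_cancel_right]
  let f : (G → N) × (S → N) → (G → N ⧸ N') × (S → N ⧸ N') := fun z =>
    (fun g => N'.mkQ (z.1 g), fun w => N'.mkQ (z.2 w))
  have hmaps : ∀ z ∈ Ker ρ D, f z ∈ Ker ρ'' D := by
    rintro z ⟨hc, hp⟩
    refine ⟨⟨?_, ?_⟩, ?_⟩
    · exact hc.loc.comp _
    · intro g h
      show N'.mkQ (z.1 (g * h)) = N'.mkQ (z.1 g) + ρ'' g (N'.mkQ (z.1 h))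
      rw [hc.mul, map_add, hρ]
    · intro w g hg
      have h1 := hp w g hg
      unfold psi at h1 ⊢
      show N'.mkQ (z.1 g) - (N'.mkQ (z.2 w) - ρ'' g (N'.mkQ (z.2 w))) = 0
      rw [hρ, ← map_sub, ← map_sub, h1, map_zero]
  rw [Set.ncard_eq_toFinset_card _ hf, Set.ncard_eq_toFinset_card _ hf'']
  refine Finset.card_le_mul_card_image_of_maps_to (f := f) ?_ _ ?_
  · intro z hz
    rw [Set.Finite.mem_toFinset] at hz ⊢
    exact hmaps z hz
  · intro t _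
    by_cases hne : ∃ z₀ ∈ Ker ρ D, f z₀ = t
    · obtain ⟨z₀, hz₀, hft⟩ := hne
      have hsubset : ((hf.toFinset.filter fun z => f z = t : Finset _) : Set ((G → N) × (S → N))) ⊆
          (fun w : (G → N') × (S → N') =>
            ((fun g => z₀.1 g + (w.1 g : N), fun s => z₀.2 s + (w.2 s : N)) :
              (G → N) × (S → N))) '' Ker (rsn ρ N') D := by
        intro z hz
        rw [Finset.mem_coe, Finset.mem_filter, Set.Finite.mem_toFinset] at hz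
        obtain ⟨hz, hzt⟩ := hz
        have e1 : ∀ g, z.1 g - z₀.1 g ∈ N' := by
          intro g
          have : (f z).1 g = (f z₀).1 g := by rw [hzt, hft]
          have h2 : N'.mkQ (z.1 g) = N'.mkQ (z₀.1 g) := this
          rw [← N'.ker_mkQ, LinearMap.mem_ker, map_sub, h2, sub_self]
        have e2 : ∀ w, z.2 w - z₀.2 w ∈ N' := by
          intro w
          have : (f z).2 w = (f z₀).2 w := by rw [hzt, hft]
          have h2 : N'.mkQ (z.2 w) = N'.mkQ (z₀.2 w) := this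
          rw [← N'.ker_mkQ, LinearMap.mem_ker, map_sub, h2, sub_self]
        refine ⟨(fun g => ⟨z.1 g - z₀.1 g, e1 g⟩, fun w => ⟨z.2 w - z₀.2 w, e2 w⟩),
          ⟨⟨?_, ?_⟩, ?_⟩, ?_⟩
        · refine IsLocallyConstant.desc _ (fun x : N' => (x : N)) ?_ Subtype.val_injective
          exact hz.1.loc.sub hz₀.1.loc
        · intro g h
          apply Subtype.ext
          rw [Submodule.coe_add, rsn_coe _ _ hs]
          show z.1 (g * h) - z₀.1 (g * h) = z.1 g - z₀.1 g + ρ g (z.1 h - z₀.1 h)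
          rw [hz.1.mul, hz₀.1.mul, hsub]
          abel
        · intro w g hg
          unfold psi
          apply Subtype.ext
          rw [Submodule.coe_sub, Submodule.coe_sub, rsn_coe _ _ hs]
          show z.1 g - z₀.1 g - (z.2 w - z₀.2 w - ρ g (z.2 w - z₀.2 w)) = 0
          have h1 := hz.2 w g hg
          have h2 := hz₀.2 w g hg
          unfold psi at h1 h2
          rw [hsub]
          have h3 : z.1 g - z₀.1 g - (z.2 w - z₀.2 w - (ρ g (z.2 w) - ρ g (z₀.2 w))) =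
            (z.1 g - (z.2 w - ρ g (z.2 w))) - (z₀.1 g - (z₀.2 w - ρ g (z₀.2 w))) := by abel
          rw [h3, h1, h2, sub_self]
        · apply Prod.ext
          · funext g
            show z₀.1 g + (z.1 g - z₀.1 g) = z.1 g
            abel
          · funext w
            show z₀.2 w + (z.2 w - z₀.2 w) = z.2 w
            abel
      have h1 := Set.ncard_le_ncard hsubset (hf'.image _)
      rw [Set.ncard_coe_finset] at h1
      exact h1.trans (Set.ncard_image_le hf')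
    · have : hf.toFinset.filter (fun z => f z = t) = ∅ := by
        rw [Finset.filter_eq_empty_iff]
        intro z hz hzt
        rw [Set.Finite.mem_toFinset] at hz
        exact hne ⟨z, hz, hzt⟩
      rw [this, Finset.card_empty]
      exact Nat.zero_le _

/-- The inequality. -/
private theorem ineq {K K1 K2 P n n1 n2 c : ℕ} (hK : K ≤ K1 * K2) (hn : n = n1 * n2)
    (h1 : K1 ^ (2 * c) ≤ P * n1 ^ (2 * c)) (h2 : K2 ^ (2 * c) ≤ P * n2 ^ (2 * c)) :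
    K ^ c ≤ P * n ^ c := by
  have h3 : (K ^ c) ^ 2 ≤ (P * n ^ c) ^ 2 := by
    calc (K ^ c) ^ 2 ≤ ((K1 * K2) ^ c) ^ 2 :=
          Nat.pow_le_pow_left (Nat.pow_le_pow_left hK c) 2
      _ = K1 ^ (2 * c) * K2 ^ (2 * c) := by
          rw [← pow_mul, mul_comm c 2, mul_pow]
      _ ≤ (P * n1 ^ (2 * c)) * (P * n2 ^ (2 * c)) := Nat.mul_le_mul h1 h2
      _ = (P * n ^ c) ^ 2 := by
          rw [hn, mul_pow, mul_pow, pow_mul n1 2 c, pow_mul n2 2 c]
          ring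
  by_contra hlt
  exact absurd h3 (not_le.mpr (Nat.pow_lt_pow_left (not_le.mp hlt) two_ne_zero))

theorem tPrE (h1 : S_Zac) (h2 : S_Lin3) (_ : S_Rsn) (h4 : S_Ozb) (h5 : S_Rdf) : S_PrE := by
  classical
  intro p _ G _ _ _ S X _ _ d A T hA L _ _ r hL L' hst hpure r' hr' hP1 hP2 c ε hc hε
  obtain ⟨k1, hk1⟩ := hP1 (2 * c) (ε / 2) (by omega) (by positivity)
  obtain ⟨k2, hk2⟩ := hP2 (2 * c) (ε / 2) (by omega) (by positivity)
  refine ⟨max k1 k2, fun k hk N _ _ q ρ hq => ?_⟩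
  obtain ⟨hNf, ⟨s, hs⟩, hZM, _, _, hsub⟩ := h5 p G L r A.ω hA.om hL k N q ρ hq
  obtain ⟨hst', ⟨q', _, hq'⟩, ρ'', hρ'', hr''⟩ := hsub L' hst hpure
  obtain ⟨q'', hq''⟩ := hr'' r' hr'
  have hL' : Ltc p (rsn r L') := ((h4 p).2.2.2 G L r hL).2.2.1 L' hst
  have hLq : Ltc p r' := ((h4 p).2.2.2 G L r hL).2.2.2 L' hst hpure r' hr'
  obtain ⟨hNf', ⟨s', hs'⟩, hZM', _, _, _⟩ :=
    h5 p G L' (rsn r L') A.ω hA.om hL' k (L'.map q) q' (rsn ρ (L'.map q)) hq'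
  obtain ⟨hNf'', ⟨s'', hs''⟩, hZM'', _, _, _⟩ :=
    h5 p G (L ⧸ L') r' A.ω hA.om hLq k (N ⧸ L'.map q) q'' ρ'' hq''
  obtain ⟨e1, he1⟩ := hk1 k (le_trans (le_max_left _ _) hk) (L'.map q) q' (rsn ρ (L'.map q)) hq'
  obtain ⟨e2, he2⟩ := hk2 k (le_trans (le_max_right _ _) hk) (N ⧸ L'.map q) q'' ρ'' hq''
  refine ⟨max e1 e2, fun 𝒟 h𝒟 hF => ?_⟩
  have hb1 := he1 𝒟 h𝒟 (le_trans (hA.mono (le_max_left _ _)) hF)
  have hb2 := he2 𝒟 h𝒟 (le_trans (hA.mono (le_max_right _ _)) hF)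
  have hcard : Nat.card N = Nat.card (L'.map q) * Nat.card (N ⧸ L'.map q) :=
    Submodule.card_eq_card_quotient_mul_card (L'.map q)
  -- the kernels
  have hker : ∀ D : X, (Ker (twz (zo p) ρ (A.h D)) A.D).ncard ≤
      (Ker (twz (zo p) (rsn ρ (L'.map q)) (A.h D)) A.D).ncard *
        (Ker (twz (zo p) ρ'' (A.h D)) A.D).ncard := by
    intro D
    have z0 := (h1 p G (Oz p) N (zo p) A.ω s hs ρ hA.om hZM).2.2.2.2.1 (A.h D) (hA.hom D)
    have z1 := (h1 p G (Oz p) (L'.map q) (zo p) A.ω s' hs' _ hA.om hZM').2.2.2.2.1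
      (A.h D) (hA.hom D)
    have z2 := (h1 p G (Oz p) (N ⧸ L'.map q) (zo p) A.ω s'' hs'' _ hA.om hZM'').2.2.2.2.1
      (A.h D) (hA.hom D)
    have f0 := (h2 p G S d A.ω A.D T hA.om hA.h2 hA.ok N s hs _ z0.act).2.2.2.2.2.1
    have f1 := (h2 p G S d A.ω A.D T hA.om hA.h2 hA.ok (L'.map q) s' hs' _ z1.act).2.2.2.2.2.1
    have f2 := (h2 p G S d A.ω A.D T hA.om hA.h2 hA.ok (N ⧸ L'.map q) s'' hs'' _
      z2.act).2.2.2.2.2.1
    rw [← rsn_twz (zo p) ρ (L'.map q) hst' (A.h D)] at f1 ⊢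
    refine ker_ext A.D _ z0.act.add (L'.map q) (fun g x hx => (L'.map q).smul_mem _ (hst' g x hx))
      _ ?_ f0 f1 f2
    intro g x
    show zo p ^ (A.h D g).val • ρ'' g ((L'.map q).mkQ x) =
      (L'.map q).mkQ (zo p ^ (A.h D g).val • ρ g x)
    rw [hρ'', map_smul]
  -- the sets
  have hsubset : {D : X | D ∈ 𝒟 ∧ p ^ k * Nat.card N ^ c <
        (Ker (twz (zo p) ρ (A.h D)) A.D).ncard ^ c} ⊆
      {D : X | D ∈ 𝒟 ∧ p ^ k * Nat.card (L'.map q) ^ (2 * c) <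
        (Ker (twz (zo p) (rsn ρ (L'.map q)) (A.h D)) A.D).ncard ^ (2 * c)} ∪
      {D : X | D ∈ 𝒟 ∧ p ^ k * Nat.card (N ⧸ L'.map q) ^ (2 * c) <
        (Ker (twz (zo p) ρ'' (A.h D)) A.D).ncard ^ (2 * c)} := by
    rintro D ⟨hD, hlt⟩
    by_contra hcon
    rw [Set.mem_union, not_or] at hcon
    obtain ⟨hc1, hc2⟩ := hcon
    have g1 : (Ker (twz (zo p) (rsn ρ (L'.map q)) (A.h D)) A.D).ncard ^ (2 * c) ≤
        p ^ k * Nat.card (L'.map q) ^ (2 * c) := by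
      by_contra hh
      exact hc1 ⟨hD, not_le.mp hh⟩
    have g2 : (Ker (twz (zo p) ρ'' (A.h D)) A.D).ncard ^ (2 * c) ≤
        p ^ k * Nat.card (N ⧸ L'.map q) ^ (2 * c) := by
      by_contra hh
      exact hc2 ⟨hD, not_le.mp hh⟩
    exact absurd (ineq (hker D) hcard g1 g2) (not_le.mpr hlt)
  have hfin1 : ({D : X | D ∈ 𝒟 ∧ p ^ k * Nat.card (L'.map q) ^ (2 * c) <
        (Ker (twz (zo p) (rsn ρ (L'.map q)) (A.h D)) A.D).ncard ^ (2 * c)}).Finite :=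
    h𝒟.subset fun D hD => hD.1
  have hfin2 : ({D : X | D ∈ 𝒟 ∧ p ^ k * Nat.card (N ⧸ L'.map q) ^ (2 * c) <
        (Ker (twz (zo p) ρ'' (A.h D)) A.D).ncard ^ (2 * c)}).Finite :=
    h𝒟.subset fun D hD => hD.1
  have hle := (Set.ncard_le_ncard hsubset (hfin1.union hfin2)).trans (Set.ncard_union_le _ _)
  have hle' : ({D : X | D ∈ 𝒟 ∧ p ^ k * Nat.card N ^ c <
        (Ker (twz (zo p) ρ (A.h D)) A.D).ncard ^ c}.ncard : ℝ) ≤
      ({D : X | D ∈ 𝒟 ∧ p ^ k * Nat.card (L'.map q) ^ (2 * c) <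
        (Ker (twz (zo p) (rsn ρ (L'.map q)) (A.h D)) A.D).ncard ^ (2 * c)}.ncard : ℝ) +
      ({D : X | D ∈ 𝒟 ∧ p ^ k * Nat.card (N ⧸ L'.map q) ^ (2 * c) <
        (Ker (twz (zo p) ρ'' (A.h D)) A.D).ncard ^ (2 * c)}.ncard : ℝ) := by
    exact_mod_cast hle
  calc _ ≤ _ := hle'
    _ ≤ ε / 2 * Nat.card 𝒟 + ε / 2 * Nat.card 𝒟 := add_le_add hb1 hb2
    _ = ε * Nat.card 𝒟 := by ring

end Pool.Agent.MP72G
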