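import Pool.Agent.Lib.MP_72e2e6_nt.P4.R.Spec

/-!
# MP_72e2e6_nt, theorem T4, part R: module PrI (helper60)
-/

namespace Pool.Agent.MP72G

open Finset Pool.Agent.MP72P

private lemma large (p : ℕ) (hp : 2 ≤ p) (K : ℝ) (hK : 0 ≤ K) (c : ℕ) (hc : 1 ≤ c) (ε : ℝ) (hε : 0 < ε) :
    ∃ k₀ : ℕ, ∀ k, k₀ ≤ k → K * ((k : ℝ) + 1) ≤ ε * (p : ℝ) ^ (k / c) := by
  have hp1 : (1 : ℝ) < (p : ℝ) := by
    have : (2 : ℝ) ≤ (p : ℝ) := by exact_mod_cast hp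
    linarith
  have hc0 : (0 : ℝ) < (c : ℝ) := by exact_mod_cast hc
  have h1 := tendsto_pow_const_div_const_pow_of_one_lt 1 hp1
  have hδ : 0 < ε / (2 * (K * c + 1)) := by positivity
  have h2 := (h1.eventually (gt_mem_nhds hδ)).and (Filter.eventually_ge_atTop 1)
  obtain ⟨m₀, hm₀⟩ := Filter.eventually_atTop.1 h2
  refine ⟨c * m₀, fun k hk => ?_⟩
  have hm : m₀ ≤ k / c := by
    rw [Nat.le_div_iff_mul_le (by omega)]
    rw [mul_comm]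
    exact hk
  obtain ⟨h3, h4⟩ := hm₀ (k / c) hm
  generalize hmm : k / c = m at h3 h4 ⊢
  have h5 : k + 1 ≤ c * (m + 1) := by
    have h6 := Nat.lt_mul_div_succ k (show 0 < c by omega)
    rw [hmm] at h6
    exact h6
  have h6 : ((k : ℝ) + 1) ≤ c * ((m : ℝ) + 1) := by exact_mod_cast h5
  have h7 : (1 : ℝ) ≤ (m : ℝ) := by exact_mod_cast h4
  have hpm : (0 : ℝ) < (p : ℝ) ^ m := by positivity
  rw [pow_one, div_lt_div_iff₀ hpm (by positivity)] at h3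
  calc K * ((k : ℝ) + 1) ≤ K * (c * ((m : ℝ) + 1)) := mul_le_mul_of_nonneg_left h6 hK
    _ = (K * c) * (m + 1) := by ring
    _ ≤ (K * c + 1) * (2 * m) := by
        have h8 : 0 ≤ K * c := by positivity
        nlinarith
    _ = m * (2 * (K * c + 1)) := by ring
    _ ≤ ε * (p : ℝ) ^ m := h3.le

private lemma count {X : Type} (B E : Set X) (hE : E.Finite) (hBE : B ⊆ E) (f : X → ℕ) (t : ℕ)
    (hf : ∀ x ∈ B, t ≤ f x) : (B.ncard : ℝ) * t ≤ ∑ᶠ x ∈ E, (f x : ℝ) := by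
  classical
  have hB := hE.subset hBE
  rw [finsum_mem_eq_finite_toFinset_sum _ hE, Set.ncard_eq_toFinset_card B hB]
  calc ((#hB.toFinset : ℕ) : ℝ) * t = ∑ x ∈ hB.toFinset, (t : ℝ) := by
        rw [Finset.sum_const, nsmul_eq_mul]
    _ ≤ ∑ x ∈ hB.toFinset, (f x : ℝ) := by
        apply Finset.sum_le_sum
        intro x hx
        exact_mod_cast hf x (hB.mem_toFinset.1 hx)
    _ ≤ ∑ x ∈ hE.toFinset, (f x : ℝ) := by
        apply Finset.sum_le_sum_of_subset_of_nonneg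
        · intro x hx
          rw [Set.Finite.mem_toFinset] at hx ⊢
          exact hBE hx
        · intro x _ _
          exact Nat.cast_nonneg _

theorem tPrI (h1 : S_Ozb) (h2 : S_Rdf) (h3 : S_Nsb) (h4 : S_ThA3) : S_PrI := by
  classical
  intro p _ G _ _ _ S X _ _ d A T hA L _ _ r hL hI c ε hc hε
  have hp := (Fact.out : p.Prime)
  obtain ⟨-, -, ⟨u, hu⟩, h1L⟩ := h1 p
  obtain ⟨⟨n, e, -, h6⟩, -⟩ := h1L G L r hL
  obtain ⟨C, hC⟩ := h3 p G L r A.ω hA.om hL hI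
  obtain ⟨k₀, hk₀⟩ := large p hp.two_le ((C : ℝ) * ((p : ℝ) ^ (n * d) + 1)) (by positivity) c hc ε hε
  refine ⟨k₀, fun k hk N _ _ q ρ hR => ?_⟩
  obtain ⟨hfin, ⟨s, hs⟩, hZ, hst, -, -⟩ := h2 p G L r A.ω hA.om hL k N q ρ hR
  have hcond : ∀ N₁ : Submodule (Oz p) N, Stb ρ N₁ → ∀ (V₁ : Type) [AddCommGroup V₁] (q₁ : N₁ →+ V₁),
      Function.Surjective q₁ → (∀ x, q₁ x = 0 ↔ ∃ y, x = (1 - zo p) • y) → Nat.card V₁ ≤ p ^ n := by
    intro N₁ _ V₁ _ q₁ hq₁ hker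
    have hres : ∀ x ∈ N₁.comap q, q x ∈ N₁ := fun x hx => hx
    let q₂ : N₁.comap q →+ V₁ := q₁.comp (q.restrict hres).toAddMonoidHom
    have hq₂ : ∀ x : N₁.comap q, q₂ x = q₁ (q.restrict hres x) := fun _ => rfl
    refine (h6 (N₁.comap q) V₁ q₂ ?_ ?_).2
    · intro v
      obtain ⟨y, rfl⟩ := hq₁ v
      obtain ⟨x, hx⟩ := hR.sur y
      refine ⟨⟨x, by rw [Submodule.mem_comap, hx]; exact y.2⟩, ?_⟩
      rw [hq₂]
      congr 1
      apply Subtype.ext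
      exact hx
    · intro x
      rw [hq₂, map_smul, hu, mul_smul]
      exact (hker _).2 ⟨_, rfl⟩
  obtain ⟨e₀, he₀⟩ := h4 p G S X d A T hA (Oz p) N (zo p) s hs ρ hZ n hcond 1 one_pos
  refine ⟨e₀, fun 𝒟 h𝒟 hF => ?_⟩
  have h7 := he₀ 𝒟 h𝒟 hF
  have hNpos : 0 < Nat.card N := by
    rw [hs]
    exact pow_pos hp.pos s
  have h8 := count {D : X | D ∈ 𝒟 ∧ p ^ k * Nat.card N ^ c < (Ker (twz (zo p) ρ (A.h D)) A.D).ncard ^ c}
    (𝒟 : Set X) h𝒟 (fun D hD => hD.1) (fun D => (Ker (twz (zo p) ρ (A.h D)) A.D).ncard)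
    (p ^ (k / c) * Nat.card N) (by
      intro D hD
      have h9 : (p ^ (k / c) * Nat.card N) ^ c < (Ker (twz (zo p) ρ (A.h D)) A.D).ncard ^ c := by
        refine lt_of_le_of_lt ?_ hD.2
        rw [mul_pow, ← pow_mul]
        exact Nat.mul_le_mul_right _ (Nat.pow_le_pow_right hp.pos (Nat.div_mul_le_self k c))
      exact (lt_of_pow_lt_pow_left₀ c (Nat.zero_le _) h9).le)
  have h9 := h8.trans h7
  have h10 : ((({N₁ : Submodule (Oz p) N | Stb ρ N₁}.ncard : ℕ) : ℝ)) ≤ C * ((k : ℝ) + 1) := by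
    exact_mod_cast hC k N q ρ hR
  have h11 := hk₀ k hk
  have hNp : (0 : ℝ) < (Nat.card N : ℝ) := by exact_mod_cast hNpos
  have hpp : (0 : ℝ) < (p : ℝ) ^ (k / c) := by
    have : (0 : ℝ) < (p : ℝ) := by exact_mod_cast hp.pos
    positivity
  have hcd : (0 : ℝ) ≤ (Nat.card 𝒟 : ℝ) := Nat.cast_nonneg _
  have h12 : (Nat.card N : ℝ) * ({N₁ : Submodule (Oz p) N | Stb ρ N₁}.ncard : ℝ) *
      ((p : ℝ) ^ (n * d) + 1) * Nat.card 𝒟 ≤ Nat.card N * (ε * (p : ℝ) ^ (k / c)) * Nat.card 𝒟 := by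
    apply mul_le_mul_of_nonneg_right _ hcd
    rw [mul_assoc]
    apply mul_le_mul_of_nonneg_left _ hNp.le
    calc ({N₁ : Submodule (Oz p) N | Stb ρ N₁}.ncard : ℝ) * ((p : ℝ) ^ (n * d) + 1)
        ≤ (C * ((k : ℝ) + 1)) * ((p : ℝ) ^ (n * d) + 1) :=
          mul_le_mul_of_nonneg_right h10 (by positivity)
      _ = (C : ℝ) * ((p : ℝ) ^ (n * d) + 1) * ((k : ℝ) + 1) := by ring
      _ ≤ _ := h11
  have h13 := h9.trans h12
  have h14 : (0 : ℝ) < (p : ℝ) ^ (k / c) * Nat.card N := by positivity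
  refine le_of_mul_le_mul_right ?_ h14
  calc _ = (({D : X | D ∈ 𝒟 ∧ p ^ k * Nat.card N ^ c <
        (Ker (twz (zo p) ρ (A.h D)) A.D).ncard ^ c}.ncard : ℕ) : ℝ) * ((p ^ (k / c) * Nat.card N : ℕ) : ℝ) := by
        push_cast
        ring
    _ ≤ _ := h13
    _ = _ := by ring

end Pool.Agent.MP72G
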