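import Pool.Agent.Lib.MP_72e2e6_nt.P4.R.Spec

/-!
# MP_72e2e6_nt, theorem T4, part R, module Rdf: basic facts on `N = L / p ^ k L`
-/

namespace Pool.Agent.MP72G

open Finset Pool.Agent.MP72P

private theorem rdf_rsn {G Λ N : Type} [CommRing Λ] [AddCommGroup N] [Module Λ N]
    {ρ : G → N → N} {N₁ : Submodule Λ N} (h : Stb ρ N₁) (g : G) (x : N₁) :
    ((rsn ρ N₁ g x : N₁) : N) = ρ g x := by
  unfold rsn
  rw [dif_pos (h g x x.2)]

private theorem rdf_act_sub {p : ℕ} {G Λ N : Type} [Group G] [TopologicalSpace G] [CommRing Λ]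
    [AddCommGroup N] [Module Λ N] {ω : G → ZMod p} {ρ : G → N → N} (hρ : ActP p ω ρ)
    {N₁ : Submodule Λ N} (h : Stb ρ N₁) : ActP p ω (rsn ρ N₁) := by
  refine ⟨?_, ?_, ?_, ?_, ?_⟩
  · intro g x y
    apply Subtype.ext
    rw [rdf_rsn h, Submodule.coe_add, Submodule.coe_add, rdf_rsn h, rdf_rsn h, hρ.add]
  · intro x
    apply Subtype.ext
    rw [rdf_rsn h, hρ.one]
  · intro a b x
    apply Subtype.ext
    rw [rdf_rsn h, rdf_rsn h, rdf_rsn h, hρ.mul]
  · intro x
    rw [IsLocallyConstant.iff_eventually_eq]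
    intro g
    have h1 := (IsLocallyConstant.iff_eventually_eq _).1 (hρ.loc (x : N)) g
    filter_upwards [h1] with y h3
    apply Subtype.ext
    rw [rdf_rsn h, rdf_rsn h, h3]
  · intro g
    obtain ⟨k, hk⟩ := hρ.uni g
    refine ⟨k, fun x => ?_⟩
    apply Subtype.ext
    rw [rdf_rsn h, hk]
    rfl

private theorem rdf_act_quo {p : ℕ} {G Λ N : Type} [Group G] [TopologicalSpace G] [CommRing Λ]
    [AddCommGroup N] [Module Λ N] {ω : G → ZMod p} {ρ : G → N → N} (hρ : ActP p ω ρ)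
    {N₁ : Submodule Λ N} {ρ' : G → N ⧸ N₁ → N ⧸ N₁}
    (h : ∀ g x, ρ' g (N₁.mkQ x) = N₁.mkQ (ρ g x)) : ActP p ω ρ' := by
  have hs := N₁.mkQ_surjective
  refine ⟨?_, ?_, ?_, ?_, ?_⟩
  · intro g x y
    obtain ⟨x, rfl⟩ := hs x
    obtain ⟨y, rfl⟩ := hs y
    rw [← map_add, h, h, h, hρ.add, map_add]
  · intro x
    obtain ⟨x, rfl⟩ := hs x
    rw [h, hρ.one]
  · intro a b x
    obtain ⟨x, rfl⟩ := hs x
    rw [h, h, h, hρ.mul]
  · intro x
    obtain ⟨x, rfl⟩ := hs x
    rw [IsLocallyConstant.iff_eventually_eq]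
    intro g
    have h1 := (IsLocallyConstant.iff_eventually_eq _).1 (hρ.loc (x : N)) g
    filter_upwards [h1] with y h3
    rw [h, h, h3]
  · intro g
    obtain ⟨k, hk⟩ := hρ.uni g
    refine ⟨k, fun x => ?_⟩
    obtain ⟨x, rfl⟩ := hs x
    rw [h, hk, map_nsmul]

/-- The order of `L / p ^ k L`. -/
private theorem rdf_card {p : ℕ} [Fact p.Prime] {n k : ℕ} {N : Type} [AddCommGroup N]
    (f : (Fin n → ℤ_[p]) →+ N) (hf : Function.Surjective f)
    (hk : ∀ x, f x = 0 ↔ ∃ y : Fin n → ℤ_[p], x = ((p : ℤ_[p]) ^ k) • y) :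
    Finite N ∧ Nat.card N = p ^ (k * n) := by
  have hp : p.Prime := Fact.out
  let g : (Fin n → ℤ_[p]) →+ (Fin n → ZMod (p ^ k)) :=
    { toFun := fun x i => PadicInt.toZModPow k (x i)
      map_zero' := by
        funext i
        simp
      map_add' := fun x y => by
        funext i
        simp }
  have hg : Function.Surjective g := by
    intro y
    choose x hx using fun i => ZMod.ringHom_surjective (PadicInt.toZModPow (p := p) k) (y i)
    exact ⟨x, funext hx⟩
  have hker : f.ker = g.ker := by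
    ext x
    rw [AddMonoidHom.mem_ker, AddMonoidHom.mem_ker, hk]
    have h1 : ∀ i, PadicInt.toZModPow k (x i) = 0 ↔ ∃ y, x i = (p : ℤ_[p]) ^ k * y := by
      intro i
      rw [← RingHom.mem_ker, PadicInt.ker_toZModPow, Ideal.mem_span_singleton]
      exact Iff.rfl
    constructor
    · rintro ⟨y, rfl⟩
      funext i
      exact (h1 i).2 ⟨y i, rfl⟩
    · intro h
      choose y hy using fun i => (h1 i).1 (congrFun h i)
      exact ⟨y, funext hy⟩
  have e : N ≃ (Fin n → ZMod (p ^ k)) :=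
    ((QuotientAddGroup.quotientKerEquivOfSurjective f hf).symm.toEquiv.trans
      (QuotientAddGroup.quotientAddEquivOfEq hker).toEquiv).trans
      (QuotientAddGroup.quotientKerEquivOfSurjective g hg).toEquiv
  have : NeZero (p ^ k) := ⟨pow_ne_zero _ hp.ne_zero⟩
  refine ⟨Finite.of_equiv _ e.symm, ?_⟩
  rw [Nat.card_congr e, Nat.card_eq_fintype_card, Fintype.card_fun, Fintype.card_fin,
    ZMod.card, pow_mul]

private theorem rdf_inv {p s : ℕ} {N : Type} [AddCommGroup N] (hp : p.Prime)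
    (hs : Nat.card N = p ^ s) {c : ℕ} (hc : ¬ p ∣ c) : ∃ a : ℤ, ∀ y : N, a • (c • y) = y := by
  have h1 : IsCoprime (c : ℤ) ((p ^ s : ℕ) : ℤ) :=
    Nat.isCoprime_iff_coprime.2 ((hp.coprime_iff_not_dvd.2 hc).symm.pow_right s)
  obtain ⟨a, b, hab⟩ := h1
  refine ⟨a, fun y => ?_⟩
  have h2 : (p ^ s : ℕ) • y = 0 := by
    rw [← hs]
    exact card_nsmul_eq_zero'
  have h3 : (1 : ℤ) • y = a • (c • y) := by
    rw [← hab, add_smul, mul_smul, mul_smul, natCast_zsmul, natCast_zsmul, h2, smul_zero, add_zero]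
  rw [← h3, one_smul]

private theorem rdf_pure {Λ L : Type} [CommRing Λ] [AddCommGroup L] [Module Λ L] {c : Λ}
    {L' : Submodule Λ L} (h : ∀ x : L, c • x ∈ L' → x ∈ L') (k : ℕ) :
    ∀ x : L, c ^ k • x ∈ L' → x ∈ L' := by
  induction k with
  | zero =>
    intro x hx
    rwa [pow_zero, one_smul] at hx
  | succ k ih =>
    intro x hx
    rw [pow_succ', mul_smul] at hx
    exact ih x (h _ hx)

theorem tRdf (h1 : S_Ozb) : S_Rdf := by
  classical
  intro p hp G L _ _ _ _ _ r ω hω hL k N _ _ q ρ hR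
  have hp0 : p.Prime := hp.out
  obtain ⟨hphi, hres, hpdv, hlat⟩ := h1 p
  obtain ⟨⟨n, e, he, -⟩, -, -, -⟩ := hlat G L r hL
  have hcast : ∀ y : L, e (((p : Oz p) ^ k) • y) = ((p : ℤ_[p]) ^ k) • e y := by
    intro y
    have h2 := he ((p : ℤ_[p]) ^ k) y
    rwa [map_pow, map_natCast] at h2
  have hcard := rdf_card (p := p) (n := n) (k := k) (N := N)
    (q.toAddMonoidHom.comp e.symm.toAddMonoidHom) (by
      intro y
      obtain ⟨x, hx⟩ := hR.sur y
      refine ⟨e x, ?_⟩
      change q (e.symm (e x)) = y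
      rw [e.symm_apply_apply, hx]) (by
      intro x
      change q (e.symm x) = 0 ↔ _
      rw [hR.ker]
      constructor
      · rintro ⟨y, hy⟩
        refine ⟨e y, ?_⟩
        rw [← hcast, ← hy, e.apply_symm_apply]
      · rintro ⟨y, hy⟩
        refine ⟨e.symm y, ?_⟩
        apply e.injective
        rw [e.apply_symm_apply, hcast, e.apply_symm_apply, hy])
  have hlin : ∀ g (c : Oz p) x, ρ g (c • x) = c • ρ g x := by
    intro g c x
    obtain ⟨x, rfl⟩ := hR.sur x
    obtain ⟨d, -, hd⟩ := hR.eqv g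
    rw [← map_smul, hd, hd, hL.lin, map_smul, smul_comm]
  have hkill : ∀ x : L, q (((p : Oz p) ^ k) • x) = 0 := fun x => (hR.ker _).2 ⟨x, rfl⟩
  refine ⟨hcard.1, ⟨_, hcard.2⟩, ⟨hphi, hres, hR.act, hlin⟩, ?_, ?_, ?_⟩
  · intro N₁
    constructor
    · intro h g x hx
      obtain ⟨c, hc, hcx⟩ := hR.eqv g
      obtain ⟨a, ha⟩ := rdf_inv hp0 hcard.2 hc
      have h2 := h g (q x) hx
      rw [hcx] at h2
      have h3 := zsmul_mem h2 a
      rw [ha] at h3
      exact h3
    · intro h g x hx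
      obtain ⟨x, rfl⟩ := hR.sur x
      obtain ⟨c, hc, hcx⟩ := hR.eqv g
      rw [hcx]
      have h2 : q (r g x) ∈ N₁ := h g x hx
      exact nsmul_mem h2 c
  · intro x
    obtain ⟨x, rfl⟩ := hR.sur x
    rw [← map_smul, hkill]
  · intro L' hL' hpure
    have hst : Stb ρ (L'.map q) := by
      rintro g _ ⟨x, hx, rfl⟩
      obtain ⟨c, hc, hcx⟩ := hR.eqv g
      rw [hcx]
      exact nsmul_mem (Submodule.mem_map_of_mem (hL' g x hx)) c
    refine ⟨hst, ⟨q.submoduleMap L', fun x => rfl, ?_⟩, ?_⟩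
    · refine ⟨q.submoduleMap_surjective L', ?_, rdf_act_sub hR.act hst, ?_⟩
      · intro x
        constructor
        · intro h
          have h2 : q x = 0 := congrArg Subtype.val h
          obtain ⟨y, hy⟩ := (hR.ker _).1 h2
          have h3 : y ∈ L' := rdf_pure hpure k y (by rw [← hy]; exact x.2)
          exact ⟨⟨y, h3⟩, Subtype.ext hy⟩
        · rintro ⟨y, rfl⟩
          apply Subtype.ext
          exact hkill y
      · intro g
        obtain ⟨c, hc, hcx⟩ := hR.eqv g
        refine ⟨c, hc, fun x => ?_⟩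
        apply Subtype.ext
        rw [rdf_rsn hst]
        change ρ g (q x) = c • q ((rsn r L' g x : L') : L)
        rw [rdf_rsn hL', hcx]
    · let ρL : G → N →ₗ[Oz p] N := fun g =>
        { toFun := ρ g
          map_add' := hR.act.add g
          map_smul' := hlin g }
      have hρ'' : ∀ g x, (L'.map q).mapQ (L'.map q) (ρL g) (fun y hy => hst g y hy)
          ((L'.map q).mkQ x) = (L'.map q).mkQ (ρ g x) := fun g x => rfl
      refine ⟨fun g => (L'.map q).mapQ (L'.map q) (ρL g) (fun y hy => hst g y hy), hρ'', ?_⟩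
      intro r' hr'
      have hq'' : ∀ x, L'.mapQ (L'.map q) q (fun y hy => Submodule.mem_map_of_mem hy)
          (L'.mkQ x) = (L'.map q).mkQ (q x) := fun x => rfl
      refine ⟨L'.mapQ (L'.map q) q (fun y hy => Submodule.mem_map_of_mem hy), ?_, ?_,
        rdf_act_quo hR.act hρ'', ?_⟩
      · intro y
        obtain ⟨y, rfl⟩ := (L'.map q).mkQ_surjective y
        obtain ⟨x, rfl⟩ := hR.sur y
        exact ⟨L'.mkQ x, hq'' x⟩
      · intro x
        obtain ⟨x, rfl⟩ := L'.mkQ_surjective x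
        rw [hq'']
        constructor
        · intro h
          rw [Submodule.mkQ_apply, Submodule.Quotient.mk_eq_zero] at h
          obtain ⟨x', hx', hxx⟩ := h
          have h2 : q (x - x') = 0 := by rw [map_sub, hxx, sub_self]
          obtain ⟨y, hy⟩ := (hR.ker _).1 h2
          refine ⟨L'.mkQ y, ?_⟩
          rw [← map_smul, ← hy, map_sub]
          have h3 : L'.mkQ x' = 0 := by
            rw [Submodule.mkQ_apply, Submodule.Quotient.mk_eq_zero]
            exact hx'
          rw [h3, sub_zero]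
        · rintro ⟨y, hy⟩
          obtain ⟨y, rfl⟩ := L'.mkQ_surjective y
          rw [← map_smul, ← sub_eq_zero, ← map_sub, Submodule.mkQ_apply,
            Submodule.Quotient.mk_eq_zero] at hy
          rw [Submodule.mkQ_apply, Submodule.Quotient.mk_eq_zero]
          refine ⟨x - (p : Oz p) ^ k • y, hy, ?_⟩
          rw [map_sub, hkill, sub_zero]
      · intro g
        obtain ⟨c, hc, hcx⟩ := hR.eqv g
        refine ⟨c, hc, fun x => ?_⟩
        obtain ⟨x, rfl⟩ := L'.mkQ_surjective x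
        rw [hq'', hr', hq'']
        change (L'.map q).mkQ (ρ g (q x)) = _
        rw [hcx, map_nsmul]

end Pool.Agent.MP72G
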