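import Pool.Agent.Lib.MP_72e2e6_nt.P4.R.Defs

/-!
# MP_72e2e6_nt, theorem T4, part R (lattices)

The proofs are complete in the docstrings; every module is independent (used statements are
hypotheses): file `P4/R/<Name>.lean` (import this file only) with `theorem t<Name> : S_<Name>` or
`theorem t<Name> (h1 : S_X) (h2 : S_Y) .. : S_<Name>` (the used statements in the order of the
docstring), namespace `Pool.Agent.MP72G`, `open Pool.Agent.MP72P`, other declarations `private`. All types are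
in `Type`. `p L` is the set of the elements `p • x`.
-/

namespace Pool.Agent.MP72G

open Finset Pool.Agent.MP72P

/-- **Ozb** (300 lines). Basic facts on `Oz p` and lattices.

Proof. (1) `AdjoinRoot.eval₂_root`. (2) every element is a polynomial in `ζ` with coefficients in `ℤ_[p]`, so it is `a` plus a
multiple of `ζ - 1` with `a ∈ ℤ_[p]`, and `a = c + p b` with `c ∈ ℕ` (`PadicInt.zmodRepr` or `PadicInt.appr`); `p ∈ (1 - ζ)` by (1).
(3) from (1): `∑ ζ ^ i = p - (1 - ζ) (..)`. (4) `Oz p` is a free `ℤ_[p]`-module of rank `p - 1` (`AdjoinRoot.powerBasis'`, the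
polynomial is monic), so `L` is a finitely generated `ℤ_[p]`-module (`Module.compHom` by the `algebraMap`); it is
torsion-free (a nonzero element of `ℤ_[p]` is a power of `p` times a unit, `tf`), so it is free
(`Module.free_of_finite_type_torsion_free'`, `ℤ_[p]` is a principal ideal domain). (5) `L₂` is a `ℤ_[p]`-submodule of
the noetherian module `L`; `Submodule.le_of_le_smul_of_le_jacobson_bot` for the local ring `ℤ_[p]`. (6) `L₁` is a
submodule of `ℤ_[p] ^ n` by (4), so it is free of rank `m ≤ n` (`Submodule.basisOfPid`), and `V₁` is a quotient of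
`L₁ / p L₁`, which has `p ^ m` elements. (7) a submodule of a finitely generated module over a noetherian ring; `tf` is
clear. (8) `L ⧸ L'` is finitely generated; it has no `p`-torsion by purity. -/
def S_Ozb : Prop :=
  ∀ (p : ℕ) [Fact p.Prime],
    (∑ i ∈ range p, zo p ^ i = 0) ∧ (∀ x : Oz p, ∃ (c : ℕ) (y : Oz p), x = c + (1 - zo p) * y) ∧
    (∃ u : Oz p, (p : Oz p) = (1 - zo p) * u) ∧
    ∀ (G L : Type) [Group G] [TopologicalSpace G] [AddCommGroup L] [Module (Oz p) L]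
      (r : G → L → L), Ltc p r →
      (∃ (n : ℕ) (e : L ≃+ (Fin n → ℤ_[p])),
        (∀ (c : ℤ_[p]) (x : L), e (algebraMap ℤ_[p] (Oz p) c • x) = c • e x) ∧
        ∀ (L₁ : Submodule (Oz p) L) (V₁ : Type) [AddCommGroup V₁] (q₁ : L₁ →+ V₁),
          Function.Surjective q₁ → (∀ x, q₁ ((p : Oz p) • x) = 0) →
            Finite V₁ ∧ Nat.card V₁ ≤ p ^ n) ∧
      (∀ L₁ L₂ : Submodule (Oz p) L,
        (∀ x ∈ L₂, ∃ y ∈ L₁, ∃ z ∈ L₂, x = y + (p : Oz p) • z) → L₂ ≤ L₁) ∧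
      (∀ L' : Submodule (Oz p) L, Stb r L' → Ltc p (rsn r L')) ∧
      ∀ L' : Submodule (Oz p) L, Stb r L' → (∀ x : L, (p : Oz p) • x ∈ L' → x ∈ L') →
        ∀ r' : G → L ⧸ L' → L ⧸ L', (∀ g x, r' g (L'.mkQ x) = L'.mkQ (r g x)) → Ltc p r'

/-- **Rdf** (250 lines, uses `S_Ozb`). Basic facts on `N = L / p ^ k L`.

Proof. (1) `N` is isomorphic (as a group) to `L / p ^ k L`, so by `S_Ozb` (4) to `(ℤ_[p] / p ^ k) ^ n`. (2) `phi`, `res`: `S_Ozb` (1),
(2). `lin`: `ρ g (c • q x) = ρ g (q (c • x)) = c_g • q (r g (c • x)) = c • ρ g (q x)`. (3) `c_g` is invertible on the finite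
`p`-group `N` (`c_g c' = 1 + m #N`), so `ρ g (q x) ∈ N₁` iff `q (r g x) ∈ N₁`. (4) clear (`x = q x'`). (5) (restriction) `N' = q(L')`
is stable by `eqv`; `q'` is the restriction of `q`; its kernel: `q x = 0`, `x ∈ L'` gives `x = p ^ k y` and `y ∈ L'` by purity
(`k` times). `ρ' = rsn ρ N'`, `ActP` is inherited. (6) (quotient) `ρ''` is induced by `ρ`, `q''` by `q`. Kernel:
`q'' (mk x) = 0` iff `q x = q x'` with `x' ∈ L'` iff `x - x' ∈ p ^ k L`. `ActP` is inherited. -/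
def S_Rdf : Prop :=
  ∀ (p : ℕ) [Fact p.Prime] (G L : Type) [Group G] [TopologicalSpace G] [IsTopologicalGroup G]
    [AddCommGroup L] [Module (Oz p) L] (r : G → L → L) (ω : G → ZMod p), ChO p ω → Ltc p r →
    ∀ (k : ℕ) (N : Type) [AddCommGroup N] [Module (Oz p) N] (q : L →ₗ[Oz p] N) (ρ : G → N → N),
    Rdk p ω r k q ρ →
      Finite N ∧ (∃ s, Nat.card N = p ^ s) ∧ ZM p (zo p) ω ρ ∧
      (∀ N₁ : Submodule (Oz p) N, Stb ρ N₁ ↔ Stb r (N₁.comap q)) ∧
      (∀ x : N, (p : Oz p) ^ k • x = 0) ∧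
      ∀ L' : Submodule (Oz p) L, Stb r L' → (∀ x : L, (p : Oz p) • x ∈ L' → x ∈ L') →
        Stb ρ (L'.map q) ∧
        (∃ q' : L' →ₗ[Oz p] L'.map q, (∀ x : L', (q' x : N) = q x) ∧
          Rdk p ω (rsn r L') k q' (rsn ρ (L'.map q))) ∧
        ∃ ρ'' : G → N ⧸ L'.map q → N ⧸ L'.map q,
          (∀ g x, ρ'' g ((L'.map q).mkQ x) = (L'.map q).mkQ (ρ g x)) ∧
          ∀ r' : G → L ⧸ L' → L ⧸ L', (∀ g x, r' g (L'.mkQ x) = L'.mkQ (r g x)) →
            ∃ q'' : (L ⧸ L') →ₗ[Oz p] N ⧸ L'.map q, Rdk p ω r' k q'' ρ''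

/-- **Cmx** (250 lines, uses `S_Ozb`). Uniformity for irreducible lattices.

Proof. For `x ∈ L` let `L(x)` be the smallest stable submodule which contains `x` (the sum of the `Oz p • r g x`). For `x ≠ 0`
there is `j` with `p ^ j L ⊆ L(x)` (`Irz`); let `j(x)` be the smallest one. (a) If `x' - x ∈ p ^ (j + 1) L` with
`j = j(x)` then `j(x') ≤ j`: `r g x - r g x' ∈ p ^ (j + 1) L`, so `p ^ j L ⊆ L(x) ⊆ L(x') + p (p ^ j L)`, and by `S_Ozb` (5)
(`L₂ = p ^ j L`: an element of `p ^ j L` is `y + p z`, `y ∈ L(x')`, `z ∈ p ^ j L`) `p ^ j L ⊆ L(x')`. (b) Let `P = L \ p L`. By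
`S_Ozb` (4) transport the topology of `Fin n → ℤ_[p]`, a compact space, to `L`; `P` is closed (`p L` is open), so compact,
does not contain `0`, and the sets `{x' | x' - x ∈ p ^ (j(x) + 1) L}` are open and cover `P`; so finitely many of them
cover `P` and `j` is bounded on `P` by some `c`. (c) If `L₁` is stable and contains `x ∈ P` then
`p ^ c L ⊆ L(x) ⊆ L₁`. (Without topology: if for every `c` there is `x_c ∈ P` with `j(x_c) > c`, choose a subsequence such
that the classes modulo `p ^ i` are constant from some point on, for every `i`; it converges to `x ∈ P`, contradiction to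
(a).) -/
def S_Cmx : Prop :=
  ∀ (p : ℕ) [Fact p.Prime] (G L : Type) [Group G] [TopologicalSpace G] [AddCommGroup L]
    [Module (Oz p) L] (r : G → L → L), Ltc p r → Irz p r →
    ∃ c : ℕ, ∀ L₁ : Submodule (Oz p) L, Stb r L₁ → (∃ x ∈ L₁, ¬ ∃ y, x = (p : Oz p) • y) →
      ∀ x : L, (p : Oz p) ^ c • x ∈ L₁

/-- **Nsb** (250 lines, uses `S_Ozb`, `S_Rdf`, `S_Cmx`). The number of the stable submodules of `L / p ^ k L`.

Proof. Let `c` be as in `S_Cmx` and `C` the number of the submodules of the finite group `L / p ^ c L` (`S_Ozb` (4)). The map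
`N₁ ↦ L₁ = N₁.comap q` is injective, `L₁` is stable (`S_Rdf`) and contains `p ^ k L`. Let `i ≤ k` be maximal with
`L₁ ⊆ p ^ i L`, and `L₁' = {x | p ^ i x ∈ L₁}`, so `L₁ = p ^ i L₁'` (`L` has no `p`-torsion). If `i = k` then `L₁ = p ^ k L`. If
`i < k` then `L₁'` is stable and contains an element which is not in `p L`, so it contains `p ^ c L` and is determined by its
image in `L / p ^ c L`. So there are at most `C k + 1 ≤ (C + 1) (k + 1)` submodules. (For `L = 0` everything is trivial; it is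
covered by the same argument.) -/
def S_Nsb : Prop :=
  ∀ (p : ℕ) [Fact p.Prime] (G L : Type) [Group G] [TopologicalSpace G] [IsTopologicalGroup G]
    [AddCommGroup L] [Module (Oz p) L] (r : G → L → L) (ω : G → ZMod p), ChO p ω → Ltc p r →
    Irz p r → ∃ C : ℕ, ∀ (k : ℕ) (N : Type) [AddCommGroup N] [Module (Oz p) N]
      (q : L →ₗ[Oz p] N) (ρ : G → N → N), Rdk p ω r k q ρ →
        {N₁ : Submodule (Oz p) N | Stb ρ N₁}.ncard ≤ C * (k + 1)

/-- **PrI** (250 lines, uses `S_Ozb`, `S_Rdf`, `S_Nsb`, `S_ThA3`). Irreducible lattices.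

Proof. Let `n` be as in `S_Ozb` (4), `C` as in `S_Nsb`, and `c`, `ε` be given. There is `k₀` such that
`C (k + 1) (p ^ (n d) + 1) ≤ ε p ^ (k / c)` (integer part) for all `k ≥ k₀`. Let `k`, `N`, `q`, `ρ` be given (`S_Rdf`). The
condition on `R = n` in `S_ThA3` holds: for `q₁ : N₁ → V₁` with kernel `(1 - ζ) N₁` compose with the surjection
`N₁.comap q → N₁` and use `S_Ozb` (6) (`p x ∈ (1 - ζ) N₁`, `S_Ozb` (3)). `S_ThA3` (`ε = 1`) gives `e₀` with
`∑_{D ∈ 𝒟} #Ker_D ≤ #N C (k + 1) (p ^ (n d) + 1) #𝒟 ≤ ε p ^ (k / c) #N #𝒟`. If `p ^ k #N ^ c < #Ker_D ^ c` then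
`(p ^ (k / c) #N) ^ c ≤ p ^ k #N ^ c < #Ker_D ^ c`, so `p ^ (k / c) #N < #Ker_D`. So the number of these `D` times
`p ^ (k / c) #N` is at most the sum. -/
def S_PrI : Prop :=
  ∀ (p : ℕ) [Fact p.Prime] (G : Type) [Group G] [TopologicalSpace G] [IsTopologicalGroup G]
    (S X : Type) [Nonempty S] [AddCommGroup X] (d : ℕ) (A : Fz p G S X) (T : Tst G S d), A.Good T →
    ∀ (L : Type) [AddCommGroup L] [Module (Oz p) L] (r : G → L → L), Ltc p r → Irz p r →
      PrL A L r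

/-- **PrE** (300 lines, uses `S_Zac`, `S_Lin3`, `S_Rsn`, `S_Ozb`, `S_Rdf`). Extensions.

Proof. Let `c`, `ε` be given, `k₀` the maximum of the two constants for `2 c` and `ε / 2` for `L'` and `L ⧸ L'`. Let `k ≥ k₀`, `N`, `q`,
`ρ`, and `N' = L'.map q`, `q'`, `q''`, `ρ''` as in `S_Rdf` (5), (6); `e₀` the maximum of the two constants. For `D ∈ 𝒟`, with
`ρ_D = twz ζ ρ (A.h D)` etc.: `Ker ρ_D → Ker ρ''_D`, `z ↦ mk ∘ z`, and two elements with the same image differ by an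
element of `Ker ρ_D` with values in `N'`, i.e. an element of `Ker ρ'_D`, `ρ' = rsn ρ N'` (`S_Rsn`). So
`#Ker ρ_D ≤ #Ker ρ'_D #Ker ρ''_D` (the kernels are finite, `S_Lin3`, `S_Zac` (5)) and `#N = #N' #(N ⧸ N')`. If
`#Ker ρ'_D ^ (2 c) ≤ p ^ k #N' ^ (2 c)` and `#Ker ρ''_D ^ (2 c) ≤ p ^ k #(N ⧸ N') ^ (2 c)` then
`(#Ker ρ_D ^ c) ^ 2 ≤ (p ^ k #N ^ c) ^ 2`. -/
def S_PrE : Prop :=
  ∀ (p : ℕ) [Fact p.Prime] (G : Type) [Group G] [TopologicalSpace G] [IsTopologicalGroup G]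
    (S X : Type) [Nonempty S] [AddCommGroup X] (d : ℕ) (A : Fz p G S X) (T : Tst G S d), A.Good T →
    ∀ (L : Type) [AddCommGroup L] [Module (Oz p) L] (r : G → L → L), Ltc p r →
    ∀ L' : Submodule (Oz p) L, Stb r L' → (∀ x : L, (p : Oz p) • x ∈ L' → x ∈ L') →
    ∀ r' : G → L ⧸ L' → L ⧸ L', (∀ g x, r' g (L'.mkQ x) = L'.mkQ (r g x)) →
      PrL A L' (rsn r L') → PrL A (L ⧸ L') r' → PrL A L r

/-- **PrA** (200 lines, uses `S_Ozb`, `S_PrI`, `S_PrE`; the main theorem of part R). All lattices.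

Proof. Induction on the number `#(L / p L)` (finite, `S_Ozb` (4)), for all `L`, `r`. If `Irz p r` use `S_PrI`. Otherwise there is a
stable `L₁ ≠ 0` such that no `p ^ j L` is contained in `L₁`. Let `L' = {x | ∃ j, p ^ j x ∈ L₁}`, a stable submodule with
`p x ∈ L' → x ∈ L'`. `L' ≠ 0`. `L' ≠ L`: otherwise, as `L` is finitely generated, `p ^ j L ⊆ L₁` for some `j`. The induced `r'` on
`L ⧸ L'` exists. `L' / p L' → L / p L` is injective (purity) with cokernel `(L ⧸ L') / p`, so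
`#(L' / p L') #((L ⧸ L') / p) = #(L / p L)`, and both factors are `> 1` by `S_Ozb` (5) (`L₁ = ⊥`, `L₂ = ⊤`: if `p L' = L'` then
`L' = 0`). By induction (`S_Ozb` (7), (8)) and `S_PrE` the claim follows. -/
def S_PrA : Prop :=
  ∀ (p : ℕ) [Fact p.Prime] (G : Type) [Group G] [TopologicalSpace G] [IsTopologicalGroup G]
    (S X : Type) [Nonempty S] [AddCommGroup X] (d : ℕ) (A : Fz p G S X) (T : Tst G S d), A.Good T →
    ∀ (L : Type) [AddCommGroup L] [Module (Oz p) L] (r : G → L → L), Ltc p r → PrL A L r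

/-- **Lfo** (250 lines, uses `S_Ozb`). The ring `Oz p / p ^ k`.

Proof. See `P3/A/Lfn.lean`. Let `ζ` be the class of `zo p`, `π = 1 - ζ`, `φ z = ∑ i, (z i).val * ζ ^ i.val`. `Oz p` has the basis
`1, ζ, .., ζ ^ (p - 2)` over `ℤ_[p]` (`AdjoinRoot.powerBasis'`), so `Oz p / p ^ k` has `p ^ (k (p - 1))` elements. `phi`, `res`, `pdv`:
`S_Ozb`. `nil`: modulo `p` the polynomial `∑_{i < p} X ^ i` is `(X - 1) ^ (p - 1)` (`(X - 1) ∑ X ^ i = X ^ p - 1 = (X - 1) ^ p` in
characteristic `p`, cancel `X - 1`), so `π ^ (p - 1) ∈ (p)` and `π ^ (k (p - 1)) = 0`. `sur`: the coefficients are natural numbers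
modulo `p ^ k`. `ker`: `ζ ^ (p - 1) = - ∑_{i < p - 1} ζ ^ i`, so `φ z = ∑_{i < p - 1} (z i - z (p - 1)) ζ ^ i`. `shf`: `zt π c = ζ ^ c.val` and
`ζ ^ p = 1`. -/
def S_Lfo : Prop :=
  ∀ (p : ℕ) [Fact p.Prime] (k : ℕ),
    ∃ φ : (ZMod p → ZMod (p ^ k)) → Oz p ⧸ Ideal.span {(p : Oz p) ^ k},
      IsLam p k (1 - Ideal.Quotient.mk (Ideal.span {(p : Oz p) ^ k}) (zo p)) φ

end Pool.Agent.MP72G
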