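import Pool.Agent.Lib.MP_72e2e6_nt.P4.Z.Spec
import Pool.Agent.Lib.MP_72e2e6_nt.P3.E.Defs

/-!
# MP_72e2e6_nt, theorem T4, part R (lattices): definitions

`Oz p` is the ring `ℤ_p[ζ]`, `1 + ζ + .. + ζ ^ (p - 1) = 0`. A lattice `L` is a finitely generated module over
`Oz p` without `p`-torsion with operators `r g` of a finite `p`-group quotient of `G`.
-/

namespace Pool.Agent.MP72G

open Finset Pool.Agent.MP72P

/-- The ring `ℤ_p[ζ]`. -/
abbrev Oz (p : ℕ) [Fact p.Prime] : Type :=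
  AdjoinRoot (∑ i ∈ range p, (Polynomial.X : Polynomial ℤ_[p]) ^ i)

/-- The root of unity `ζ`. -/
noncomputable def zo (p : ℕ) [Fact p.Prime] : Oz p :=
  AdjoinRoot.root (∑ i ∈ range p, (Polynomial.X : Polynomial ℤ_[p]) ^ i)

/-- The lattices. -/
structure Ltc (p : ℕ) [Fact p.Prime] {G L : Type} [Group G] [TopologicalSpace G] [AddCommGroup L]
    [Module (Oz p) L] (r : G → L → L) : Prop where
  fg : Module.Finite (Oz p) L
  tf : ∀ x : L, (p : Oz p) • x = 0 → x = 0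
  add : ∀ g x y, r g (x + y) = r g x + r g y
  lin : ∀ g (c : Oz p) x, r g (c • x) = c • r g x
  one : ∀ x, r 1 x = x
  mul : ∀ g h x, r (g * h) x = r g (r h x)
  loc : ∀ x, IsLocallyConstant fun g => r g x
  pow : ∀ g, ∃ k : ℕ, ∀ x, r (g ^ p ^ k) x = x

/-- Every stable submodule which is not `0` contains `p ^ j L` for some `j`. -/
def Irz (p : ℕ) [Fact p.Prime] {G L : Type} [AddCommGroup L] [Module (Oz p) L] (r : G → L → L) :
    Prop :=
  ∀ L₁ : Submodule (Oz p) L, Stb r L₁ → L₁ ≠ ⊥ → ∃ j : ℕ, ∀ x : L, (p : Oz p) ^ j • x ∈ L₁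

/-- `N = L / p ^ k L` with operators `ρ g` which are induced by the `r g` up to integers prime to `p`. -/
structure Rdk (p : ℕ) [Fact p.Prime] {G L N : Type} [Group G] [TopologicalSpace G] [AddCommGroup L]
    [Module (Oz p) L] [AddCommGroup N] [Module (Oz p) N] (ω : G → ZMod p) (r : G → L → L) (k : ℕ)
    (q : L →ₗ[Oz p] N) (ρ : G → N → N) : Prop where
  sur : Function.Surjective q
  ker : ∀ x, q x = 0 ↔ ∃ y, x = (p : Oz p) ^ k • y
  act : ActP p ω ρ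
  eqv : ∀ g, ∃ c : ℕ, ¬ p ∣ c ∧ ∀ x, ρ g (q x) = c • q (r g x)

/-- The order of the kernel for `N = L / p ^ k L` is at most `p ^ (k / c) #N` for one hundred percent of the
twists, for large `k`. -/
def PrL {p : ℕ} [Fact p.Prime] {G S X : Type} [Group G] [TopologicalSpace G]
    [AddCommGroup X] (A : Fz p G S X) (L : Type) [AddCommGroup L] [Module (Oz p) L]
    (r : G → L → L) : Prop :=
  ∀ (c : ℕ) (ε : ℝ), 1 ≤ c → 0 < ε → ∃ k₀ : ℕ, ∀ k, k₀ ≤ k →
    ∀ (N : Type) [AddCommGroup N] [Module (Oz p) N] (q : L →ₗ[Oz p] N) (ρ : G → N → N),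
    Rdk p A.ω r k q ρ → ∃ e₀ : ℕ, ∀ 𝒟 : AddSubgroup X, (𝒟 : Set X).Finite → A.F e₀ ≤ 𝒟 →
      ({D : X | D ∈ 𝒟 ∧ p ^ k * Nat.card N ^ c <
        (Ker (twz (zo p) ρ (A.h D)) A.D).ncard ^ c}.ncard : ℝ) ≤ ε * Nat.card 𝒟

end Pool.Agent.MP72G
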