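import Pool.Agent.Lib.MP_72e2e6_nt.P4.R.Spec

/-!
# Basic facts on `Oz p` and lattices
-/

set_option autoImplicit false

namespace Pool.Agent.MP72G

open Finset Pool.Agent.MP72P

section ring

variable (p : ℕ) [hp : Fact p.Prime]

private theorem ozb_sum : ∑ i ∈ range p, zo p ^ i = 0 := by
  have h := AdjoinRoot.eval₂_root (∑ i ∈ range p, (Polynomial.X : Polynomial ℤ_[p]) ^ i)
  rw [Polynomial.eval₂_finsetSum] at h
  simpa [zo] using h

private theorem ozb_p : ∃ u : Oz p, (p : Oz p) = (1 - zo p) * u := by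
  have h1 : ∀ i ∈ range p, (1 - zo p) ∣ (1 - zo p ^ i) := by
    intro i _
    have := sub_dvd_pow_sub_pow (1 : Oz p) (zo p) i
    rwa [one_pow] at this
  have h2 : (1 - zo p) ∣ ∑ i ∈ range p, (1 - zo p ^ i) := Finset.dvd_sum h1
  rw [Finset.sum_sub_distrib, ozb_sum, sub_zero, Finset.sum_const, card_range, nsmul_eq_mul,
    mul_one] at h2
  exact h2

private theorem ozb_appr (a : ℤ_[p]) : ∃ (c : ℕ) (b : ℤ_[p]), c < p ∧ a = c + p * b := by
  have h := PadicInt.appr_spec 1 a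
  rw [Ideal.mem_span_singleton] at h
  obtain ⟨b, hb⟩ := h
  refine ⟨a.appr 1, b, ?_, ?_⟩
  · have := PadicInt.appr_lt a 1
    rwa [pow_one] at this
  · rw [pow_one] at hb
    rw [← hb]
    ring

private theorem ozb_res (x : Oz p) : ∃ (c : ℕ) (y : Oz p), x = c + (1 - zo p) * y := by
  obtain ⟨f, rfl⟩ := AdjoinRoot.mk_surjective x
  obtain ⟨q, hq⟩ := Polynomial.X_sub_C_dvd_sub_C_eval (a := (1 : ℤ_[p])) (p := f)
  obtain ⟨c, b, -, hb⟩ := ozb_appr p (Polynomial.eval 1 f)
  obtain ⟨u, hu⟩ := ozb_p p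
  have hf : f = Polynomial.C (Polynomial.eval 1 f) + (Polynomial.X - Polynomial.C 1) * q := by
    rw [← hq]
    ring
  refine ⟨c, u * algebraMap ℤ_[p] (Oz p) b - AdjoinRoot.mk _ q, ?_⟩
  have h1 : AdjoinRoot.mk (∑ i ∈ range p, (Polynomial.X : Polynomial ℤ_[p]) ^ i) f =
      algebraMap ℤ_[p] (Oz p) (Polynomial.eval 1 f) + (zo p - 1) * AdjoinRoot.mk _ q := by
    conv_lhs => rw [hf]
    rw [map_add, map_mul, map_sub, AdjoinRoot.mk_X, AdjoinRoot.mk_C, AdjoinRoot.mk_C, map_one]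
    rfl
  rw [h1, hb, map_add, map_mul, map_natCast, map_natCast]
  rw [hu]
  ring

end ring

section lat

variable {p : ℕ} [hp : Fact p.Prime]

private theorem ozb_fin : Module.Finite ℤ_[p] (Oz p) :=
  Polynomial.Monic.finite_adjoinRoot (Polynomial.monic_geom_sum_X hp.out.ne_zero)

/-- a module without `p`-torsion has no torsion -/
private theorem ozb_tf {L : Type} [AddCommGroup L] [Module ℤ_[p] L]
    (h : ∀ x : L, (p : ℤ_[p]) • x = 0 → x = 0) :
    Module.IsTorsionFree ℤ_[p] L := by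
  constructor
  intro c hc
  have hc0 : c ≠ 0 := hc.ne_zero
  rw [isSMulRegular_iff_right_eq_zero_of_smul]
  intro x hx
  rw [PadicInt.unitCoeff_spec hc0, mul_smul] at hx
  have h2 : ((p : ℤ_[p]) ^ c.valuation) • x = 0 := by
    have := congrArg (fun y => ((PadicInt.unitCoeff hc0)⁻¹ : ℤ_[p]ˣ) • y) hx
    simpa [Units.smul_def, ← mul_smul] using this
  have h3 : ∀ (k : ℕ) (y : L), ((p : ℤ_[p]) ^ k) • y = 0 → y = 0 := by
    intro k
    induction k with
    | zero => intro y hy; simpa using hy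
    | succ k ih =>
      intro y hy
      rw [pow_succ, mul_smul] at hy
      exact h y (ih _ hy)
  exact h3 _ x h2

variable {L : Type} [AddCommGroup L] [Module (Oz p) L] [Module ℤ_[p] L]
  [IsScalarTower ℤ_[p] (Oz p) L]

private theorem ozb_psmul (x : L) : (p : ℤ_[p]) • x = (p : Oz p) • x := by
  rw [← algebraMap_smul (Oz p) (p : ℤ_[p]) x, map_natCast]

private theorem ozb_vs (hfin : Module.Finite ℤ_[p] L) (htf : Module.IsTorsionFree ℤ_[p] L)
    (L₁ : Submodule (Oz p) L) (V₁ : Type) [AddCommGroup V₁] (q₁ : L₁ →+ V₁)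
    (hs : Function.Surjective q₁) (hq : ∀ x, q₁ ((p : Oz p) • x) = 0) :
    Finite V₁ ∧ Nat.card V₁ ≤ p ^ Module.finrank ℤ_[p] L := by
  have hfree : Module.Free ℤ_[p] L := Module.free_of_finite_type_torsion_free'
  let L' : Submodule ℤ_[p] L := L₁.restrictScalars ℤ_[p]
  have hfin' : Module.Finite ℤ_[p] L' := inferInstance
  have hfree' : Module.Free ℤ_[p] L' := inferInstance
  let b := Module.finBasis ℤ_[p] L'
  let m := Module.finrank ℤ_[p] L'
  have hm : m ≤ Module.finrank ℤ_[p] L := Submodule.finrank_le L'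
  let q' : L' →+ V₁ := q₁
  have hq' : ∀ x : L', q' ((p : ℤ_[p]) • x) = 0 := by
    intro x
    have h1 : q₁ ((p : Oz p) • (⟨x.1, x.2⟩ : L₁)) = 0 := hq _
    have h2 : ((p : ℤ_[p]) • x : L') = (((p : Oz p) • (⟨x.1, x.2⟩ : L₁) : L₁) : L₁) := by
      apply Subtype.ext
      exact ozb_psmul x.1
    have h3 : q' ((p : ℤ_[p]) • x) = q₁ ((p : Oz p) • (⟨x.1, x.2⟩ : L₁)) :=
      congrArg q₁ (Subtype.ext (ozb_psmul x.1))
    rw [h3]
    exact h1
  let g : (Fin m → Fin p) → V₁ := fun c => q' (∑ i, ((c i : ℕ) : ℤ_[p]) • b i)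
  have hg : Function.Surjective g := by
    intro v
    obtain ⟨x, hx⟩ := hs v
    choose c e hce he using fun i => ozb_appr p (b.repr x i)
    refine ⟨fun i => ⟨c i, hce i⟩, ?_⟩
    have h1 : (x : L') = ∑ i, ((c i : ℕ) : ℤ_[p]) • b i + (p : ℤ_[p]) • ∑ i, e i • b i := by
      rw [Finset.smul_sum, ← Finset.sum_add_distrib]
      conv_lhs => rw [← b.sum_repr x]
      refine Finset.sum_congr rfl fun i _ => ?_
      rw [smul_smul, ← add_smul, ← he i]
    have h2 : q' x = v := hx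
    rw [← h2, h1, map_add, hq', add_zero]
  refine ⟨Finite.of_surjective g hg, ?_⟩
  calc Nat.card V₁ ≤ Nat.card (Fin m → Fin p) := Nat.card_le_card_of_surjective g hg
    _ = p ^ m := by simp
    _ ≤ p ^ Module.finrank ℤ_[p] L := Nat.pow_le_pow_right hp.out.pos hm

private theorem ozb_nak (hfin : Module.Finite ℤ_[p] L) (L₁ L₂ : Submodule (Oz p) L)
    (h : ∀ x ∈ L₂, ∃ y ∈ L₁, ∃ z ∈ L₂, x = y + (p : Oz p) • z) : L₂ ≤ L₁ := by
  have h1 : L₂.restrictScalars ℤ_[p] ≤ L₁.restrictScalars ℤ_[p] := by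
    refine Submodule.le_of_le_smul_of_le_jacobson_bot (I := Ideal.span {(p : ℤ_[p])})
      (IsNoetherian.noetherian _) ?_ ?_
    · rw [IsLocalRing.jacobson_eq_maximalIdeal _ bot_ne_top, PadicInt.maximalIdeal_eq_span_p]
    · intro x hx
      obtain ⟨y, hy, z, hz, rfl⟩ := h x hx
      refine Submodule.add_mem_sup hy ?_
      rw [← ozb_psmul]
      exact Submodule.smul_mem_smul (Ideal.mem_span_singleton_self _) hz
  exact h1

end lat

private theorem ozb_rsn {G Λ N : Type} [CommRing Λ] [AddCommGroup N] [Module Λ N] {ρ : G → N → N}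
    {N₁ : Submodule Λ N} (h : Stb ρ N₁) (g : G) (x : N₁) : ((rsn ρ N₁ g x : N₁) : N) = ρ g x := by
  unfold rsn
  rw [dif_pos (h g x.1 x.2)]

theorem tOzb : S_Ozb := by
  intro p hp
  refine ⟨ozb_sum p, ozb_res p, ozb_p p, ?_⟩
  intro G L _ _ _ _ r hr
  let _ : Module ℤ_[p] L := Module.compHom L (algebraMap ℤ_[p] (Oz p))
  have : IsScalarTower ℤ_[p] (Oz p) L := IsScalarTower.of_algebraMap_smul fun _ _ => rfl
  have : Module.Finite ℤ_[p] (Oz p) := ozb_fin
  have := hr.fg
  have hfin : Module.Finite ℤ_[p] L := Module.Finite.trans (Oz p) L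
  have htf : Module.IsTorsionFree ℤ_[p] L := ozb_tf fun x hx => hr.tf x (by
    rw [← ozb_psmul]; exact hx)
  have : Module.Free ℤ_[p] L := Module.free_of_finite_type_torsion_free'
  refine ⟨⟨Module.finrank ℤ_[p] L, (Module.finBasis ℤ_[p] L).equivFun.toAddEquiv, ?_, ?_⟩, ?_, ?_, ?_⟩
  · intro c x
    exact (Module.finBasis ℤ_[p] L).equivFun.map_smul c x
  · intro L₁ V₁ _ q₁ hs hq
    exact ozb_vs hfin htf L₁ V₁ q₁ hs hq
  · intro L₁ L₂ h
    exact ozb_nak hfin L₁ L₂ h
  · intro L' hL'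
    refine ⟨inferInstance, ?_, ?_, ?_, ?_, ?_, ?_, ?_⟩
    · intro x hx
      have := congrArg Subtype.val hx
      exact Subtype.ext (hr.tf x.1 this)
    · intro g x y
      apply Subtype.ext
      rw [Submodule.coe_add, ozb_rsn hL', ozb_rsn hL', ozb_rsn hL', Submodule.coe_add, hr.add]
    · intro g c x
      apply Subtype.ext
      rw [Submodule.coe_smul, ozb_rsn hL', ozb_rsn hL', Submodule.coe_smul, hr.lin]
    · intro x
      apply Subtype.ext
      rw [ozb_rsn hL', hr.one]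
    · intro g h x
      apply Subtype.ext
      rw [ozb_rsn hL', ozb_rsn hL', ozb_rsn hL', hr.mul]
    · intro x
      refine IsLocallyConstant.desc _ (Subtype.val : L' → L) ?_ Subtype.val_injective
      have h1 : (Subtype.val : L' → L) ∘ (fun g => rsn r L' g x) = fun g => r g x :=
        funext fun g => ozb_rsn hL' g x
      rw [h1]
      exact hr.loc x.1
    · intro g
      obtain ⟨k, hk⟩ := hr.pow g
      refine ⟨k, fun x => Subtype.ext ?_⟩
      rw [ozb_rsn hL', hk]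
  · intro L' hL' hpure r' hr'
    have hsur : ∀ y : L ⧸ L', ∃ x, L'.mkQ x = y := L'.mkQ_surjective
    refine ⟨inferInstance, ?_, ?_, ?_, ?_, ?_, ?_, ?_⟩
    · intro y hy
      obtain ⟨x, rfl⟩ := hsur y
      rw [← map_smul, Submodule.mkQ_apply, Submodule.Quotient.mk_eq_zero] at hy
      rw [Submodule.mkQ_apply, Submodule.Quotient.mk_eq_zero]
      exact hpure x hy
    · intro g y z
      obtain ⟨x, rfl⟩ := hsur y
      obtain ⟨x', rfl⟩ := hsur z
      rw [← map_add, hr', hr', hr', ← map_add, hr.add]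
    · intro g c y
      obtain ⟨x, rfl⟩ := hsur y
      rw [← map_smul, hr', hr', ← map_smul, hr.lin]
    · intro y
      obtain ⟨x, rfl⟩ := hsur y
      rw [hr', hr.one]
    · intro g h y
      obtain ⟨x, rfl⟩ := hsur y
      rw [hr', hr', hr', hr.mul]
    · intro y
      obtain ⟨x, rfl⟩ := hsur y
      have h1 : (fun g => r' g (L'.mkQ x)) = fun g => L'.mkQ (r g x) := funext fun g => hr' g x
      rw [h1]
      exact (hr.loc x).comp L'.mkQ
    · intro g
      obtain ⟨k, hk⟩ := hr.pow g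
      refine ⟨k, fun y => ?_⟩
      obtain ⟨x, rfl⟩ := hsur y
      rw [hr', hk]

end Pool.Agent.MP72G
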